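import Mathlib

/-!
Definitions for the statement: formulas of the monadic second-order logic `MS₀` of matroids,
lattice paths, lattice path matroids.
-/

universe u

namespace Run7.h185.LPM

/-- Formulas of `MS₀`. The set variables are numbered by natural numbers. -/
inductive Formula : Type
  /-- `Ind(X)` -/
  | ind (x : ℕ) : Formula
  /-- `X ⊆ Y` -/
  | sub (x y : ℕ) : Formula
  /-- negation -/
  | neg (φ : Formula) : Formula
  /-- conjunction -/
  | conj (φ ψ : Formula) : Formula
  /-- disjunction -/
  | disj (φ ψ : Formula) : Formula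
  /-- implication -/
  | imp (φ ψ : Formula) : Formula
  /-- `∃ X, φ` -/
  | ex (x : ℕ) (φ : Formula) : Formula
  /-- `∀ X, φ` -/
  | all (x : ℕ) (φ : Formula) : Formula

namespace Formula

/-- the variable `z` occurs free in the formula -/
def FreeIn (z : ℕ) : Formula → Prop
  | ind x => z = x
  | sub x y => z = x ∨ z = y
  | neg φ => FreeIn z φ
  | conj φ ψ => FreeIn z φ ∨ FreeIn z ψ
  | disj φ ψ => FreeIn z φ ∨ FreeIn z ψ
  | imp φ ψ => FreeIn z φ ∨ FreeIn z ψ
  | ex x φ => z ≠ x ∧ FreeIn z φ
  | all x φ => z ≠ x ∧ FreeIn z φ

/-- a sentence is a formula without free variables -/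
def IsSentence (φ : Formula) : Prop := ∀ z, ¬ φ.FreeIn z

/-- Satisfaction of a formula in the matroid `M` under the assignment `v`; the quantifiers range
over the subsets of the ground set `M.E`. -/
def Sat {α : Type u} (M : Matroid α) : Formula → (ℕ → Set α) → Prop
  | ind x, v => M.Indep (v x)
  | sub x y, v => v x ⊆ v y
  | neg φ, v => ¬ Sat M φ v
  | conj φ ψ, v => Sat M φ v ∧ Sat M ψ v
  | disj φ ψ, v => Sat M φ v ∨ Sat M ψ v
  | imp φ ψ, v => Sat M φ v → Sat M ψ v
  | ex x φ, v => ∃ A : Set α, A ⊆ M.E ∧ Sat M φ (Function.update v x A)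
  | all x φ, v => ∀ A : Set α, A ⊆ M.E → Sat M φ (Function.update v x A)

end Formula

/-- the unit steps of a lattice path -/
inductive Step : Type
  | east : Step
  | north : Step

/-- A lattice path from `(0,0)` to `(m,r)`: a sequence of `m + r` steps, exactly `r` of which are
North steps (so exactly `m` are East steps). -/
structure LatticePath (m r : ℕ) where
  /-- the steps -/
  step : Fin (m + r) → Step
  ncard_north : {i | step i = Step.north}.ncard = r

namespace LatticePath

variable {m r : ℕ}

/-- the set of indices of the North steps of `P` -/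
def northSet (P : LatticePath m r) : Set (Fin (m + r)) := {i | P.step i = Step.north}

/-- the second coordinate of the point reached by `P` after `k` steps -/
noncomputable def height (P : LatticePath m r) (k : ℕ) : ℕ :=
  {i : Fin (m + r) | (i : ℕ) < k ∧ P.step i = Step.north}.ncard

/-- `P` never goes above `Q` -/
def Below (P Q : LatticePath m r) : Prop := ∀ k, P.height k ≤ Q.height k

end LatticePath

/-- `M` is isomorphic to the lattice path matroid `M[P,Q]`: some bijection `e` from the ground set
of `M` to `{0, …, m + r - 1}` carries the bases of `M` to the sets of North steps of the lattice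
paths `R` that lie between `P` and `Q`. -/
def IsoToLatticePathMatroid {α : Type u} (M : Matroid α) {m r : ℕ} (P Q : LatticePath m r) :
    Prop :=
  ∃ e : M.E ≃ Fin (m + r), ∀ B : Set M.E,
    M.IsBase (Subtype.val '' B) ↔
      ∃ R : LatticePath m r, P.Below R ∧ R.Below Q ∧ e '' B = R.northSet

/-- `M` is a lattice path matroid. -/
def IsLatticePathMatroid {α : Type u} (M : Matroid α) : Prop :=
  ∃ (m r : ℕ) (P Q : LatticePath m r), P.Below Q ∧ IsoToLatticePathMatroid M P Q

end Run7.h185.LPM
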