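import Mathlib
import Pool.Agent.Run7.h185.LPM.Defs

/-!
Natural number valued rank function of a finite matroid, modular pairs, connectivity, flacets.
-/

universe u

namespace Run7.h185.LPM

open Set Matroid

variable {α : Type u} {M : Matroid α}

/-- rank as a natural number -/
noncomputable def rk (M : Matroid α) (X : Set α) : ℕ := (M.eRk X).toNat

lemma coe_rk (M : Matroid α) [M.RankFinite] (X : Set α) : (rk M X : ℕ∞) = M.eRk X := by
  unfold rk
  refine ENat.natCast_toNat ?_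
  have := M.eRk_le_eRank X
  have h2 := (eRank_lt_top_iff (M := M)).2 inferInstance
  exact (this.trans_lt h2).ne

lemma rk_mono (M : Matroid α) [M.RankFinite] {X Y : Set α} (h : X ⊆ Y) : rk M X ≤ rk M Y := by
  have := M.eRk_mono h
  rw [← coe_rk, ← coe_rk] at this
  exact_mod_cast this

lemma rk_submod (M : Matroid α) [M.RankFinite] (X Y : Set α) :
    rk M (X ∩ Y) + rk M (X ∪ Y) ≤ rk M X + rk M Y := by
  have := M.eRk_inter_add_eRk_union_le X Y
  rw [← coe_rk, ← coe_rk, ← coe_rk, ← coe_rk] at this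
  exact_mod_cast this

lemma rk_empty (M : Matroid α) [M.RankFinite] : rk M ∅ = 0 := by
  have : (rk M ∅ : ℕ∞) = 0 := by rw [coe_rk]; simp
  exact_mod_cast this

lemma rk_union_le (M : Matroid α) [M.RankFinite] (X Y : Set α) :
    rk M (X ∪ Y) ≤ rk M X + rk M Y := by
  have := rk_submod M X Y
  omega

lemma _root_.Matroid.IsBasis.rk_eq' [M.RankFinite] {I X : Set α} (h : M.IsBasis I X) :
    I.ncard = rk M X := by
  have := h.encard_eq_eRk
  unfold rk
  rw [← this]
  rfl

lemma rk_indep [M.RankFinite] {I : Set α} (h : M.Indep I) : rk M I = I.ncard :=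
  (Matroid.IsBasis.rk_eq' (h.isBasis_self)).symm

lemma indep_of_rk [M.RankFinite] {I : Set α} (hfin : I.Finite)
    (h : I.ncard ≤ rk M I) : M.Indep I := by
  rw [Matroid.indep_iff_eRk_eq_encard_of_finite hfin]
  apply le_antisymm (M.eRk_le_encard I)
  rw [← coe_rk, ← hfin.cast_ncard_eq]
  exact_mod_cast h

lemma rk_le_ncard [M.RankFinite] {X : Set α} (hfin : X.Finite) : rk M X ≤ X.ncard := by
  have := M.eRk_le_encard X
  rw [← coe_rk, ← hfin.cast_ncard_eq] at this
  exact_mod_cast this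

lemma ncard_le_rk [M.RankFinite] {I X : Set α} (h : M.Indep I) (hIX : I ⊆ X) :
    I.ncard ≤ rk M X := by
  rw [← rk_indep h]
  exact rk_mono M hIX

lemma isBasis_of_rk [M.RankFinite] {I X : Set α} (h : M.Indep I) (hIX : I ⊆ X)
    (hX : X ⊆ M.E) (hr : rk M X ≤ I.ncard) : M.IsBasis I X := by
  have hfin := h.finite
  refine h.isBasis_of_eRk_ge hfin hIX ?_ hX
  rw [← coe_rk, ← coe_rk, rk_indep h]
  exact_mod_cast hr

lemma isBase_iff_rk [M.Finite] {B : Set α} (hB : B ⊆ M.E) :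
    M.IsBase B ↔ M.Indep B ∧ B.ncard = rk M M.E := by
  rw [← Matroid.isBasis_ground_iff]
  constructor
  · intro h
    exact ⟨h.indep, h.rk_eq'⟩
  · rintro ⟨h1, h2⟩
    exact isBasis_of_rk h1 hB subset_rfl h2.symm.le

/-- cardinality of the intersection with a finite set is modular -/
lemma card_mod {B : Set α} (hB : B.Finite) (X Y : Set α) :
    (B ∩ (X ∩ Y)).ncard + (B ∩ (X ∪ Y)).ncard = (B ∩ X).ncard + (B ∩ Y).ncard := by
  have := Set.ncard_union_add_ncard_inter (B ∩ X) (B ∩ Y) (hB.subset inter_subset_left)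
    (hB.subset inter_subset_left)
  rw [← Set.inter_union_distrib_left] at this
  have h2 : B ∩ X ∩ (B ∩ Y) = B ∩ (X ∩ Y) := by
    ext; simp only [mem_inter_iff]; tauto
  rw [h2] at this
  omega

/-- the pair `X, Y` has an independent set containing bases of both -/
def ModPair (M : Matroid α) (X Y : Set α) : Prop :=
  ∃ J ⊆ M.E, ∃ J₁ ⊆ M.E, ∃ J₂ ⊆ M.E, M.Indep J ∧ J₁ ⊆ J ∧ J₂ ⊆ J ∧ M.IsBasis J₁ X ∧ M.IsBasis J₂ Y

lemma modPair_iff [M.Finite] {X Y : Set α} (hX : X ⊆ M.E) (hY : Y ⊆ M.E) :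
    ModPair M X Y ↔ rk M X + rk M Y = rk M (X ∪ Y) + rk M (X ∩ Y) := by
  constructor
  · rintro ⟨J, -, J₁, -, J₂, -, hJ, h1, h2, hb1, hb2⟩
    have hs := rk_submod M X Y
    have h3 : (J₁ ∪ J₂).ncard ≤ rk M (X ∪ Y) :=
      ncard_le_rk (hJ.subset (union_subset h1 h2)) (union_subset_union hb1.subset hb2.subset)
    have h4 : (J₁ ∩ J₂).ncard ≤ rk M (X ∩ Y) :=
      ncard_le_rk (hJ.subset (inter_subset_left.trans h1))
        (inter_subset_inter hb1.subset hb2.subset)
    have h5 := Set.ncard_union_add_ncard_inter J₁ J₂ hb1.indep.finite hb2.indep.finite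
    have h6 := hb1.rk_eq'
    have h7 := hb2.rk_eq'
    omega
  · intro h
    obtain ⟨J₀, hJ₀⟩ := M.exists_isBasis (X ∩ Y) (inter_subset_left.trans hX)
    obtain ⟨J₁, hJ₁, h01⟩ := hJ₀.indep.subset_isBasis_of_subset (hJ₀.subset.trans inter_subset_left) hX
    obtain ⟨J₂, hJ₂, h02⟩ := hJ₀.indep.subset_isBasis_of_subset (hJ₀.subset.trans inter_subset_right) hY
    have hfin1 := hJ₁.indep.finite
    have hfin2 := hJ₂.indep.finite
    have hind : M.Indep (J₁ ∪ J₂) := by
      apply indep_of_rk (hfin1.union hfin2)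
      have h5 := Set.ncard_union_add_ncard_inter J₁ J₂ hfin1 hfin2
      have h6 := hJ₁.rk_eq'
      have h7 := hJ₂.rk_eq'
      have h8 := hJ₀.rk_eq'
      have h9 : J₀.ncard ≤ (J₁ ∩ J₂).ncard :=
        ncard_le_ncard (subset_inter h01 h02) (hfin1.subset inter_subset_left)
      have h10 : rk M (J₁ ∪ J₂) = rk M (X ∪ Y) := by
        unfold rk
        rw [hJ₁.eRk_eq_eRk_union, union_comm, hJ₂.eRk_eq_eRk_union, union_comm]
      omega
    exact ⟨J₁ ∪ J₂, hind.subset_ground, J₁, hJ₁.indep.subset_ground, J₂, hJ₂.indep.subset_ground,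
      hind, subset_union_left, subset_union_right, hJ₁, hJ₂⟩

/-- `X, Y` split `N` relative to `F`: `X ∪ Y = N`, `X ∩ Y = F` and the pair is modular -/
structure Split (M : Matroid α) (F N X Y : Set α) : Prop where
  FX : F ⊆ X
  FY : F ⊆ Y
  XN : X ⊆ N
  YN : Y ⊆ N
  inter : X ∩ Y ⊆ F
  union : N ⊆ X ∪ Y
  mod : rk M X + rk M Y = rk M N + rk M F

lemma Split.symm {F N X Y : Set α} (h : Split M F N X Y) : Split M F N Y X where
  FX := h.FY
  FY := h.FX
  XN := h.YN
  YN := h.XN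
  inter := by rw [inter_comm]; exact h.inter
  union := by rw [union_comm]; exact h.union
  mod := by rw [add_comm]; exact h.mod

/-- the minor `(M|N)/F` has no proper separator -/
def ConnMinor (M : Matroid α) (F N : Set α) : Prop :=
  ∀ X Y, Split M F N X Y → X ⊆ F ∨ Y ⊆ F

/-- `M|N` is connected and non-empty -/
structure Conn (M : Matroid α) (N : Set α) : Prop where
  nonempty : N.Nonempty
  conn : ConnMinor M ∅ N

/-- `N` is a component of `M` -/
structure Comp (M : Matroid α) (N : Set α) : Prop where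
  sub : N ⊆ M.E
  conn : Conn M N
  sep : ∃ Z, Split M ∅ M.E N Z

/-- `F` is a flacet of `M|N` -/
structure Flacet (M : Matroid α) (N F : Set α) : Prop where
  sub : F ⊆ N
  conn : Conn M F
  dep : ¬ M.Indep F
  minor : ConnMinor M F N
  lt : rk M F < rk M N

lemma split_of_le [M.RankFinite] {F N X Y : Set α} (FX : F ⊆ X) (FY : F ⊆ Y) (XN : X ⊆ N)
    (YN : Y ⊆ N) (inter : X ∩ Y ⊆ F) (union : N ⊆ X ∪ Y)
    (mod : rk M X + rk M Y ≤ rk M N + rk M F) : Split M F N X Y := by
  refine ⟨FX, FY, XN, YN, inter, union, le_antisymm mod ?_⟩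
  have h1 : X ∩ Y = F := inter.antisymm (subset_inter FX FY)
  have h2 : X ∪ Y = N := (union_subset XN YN).antisymm union
  have := rk_submod M X Y
  rw [h1, h2] at this
  omega

/-- the condition on a component `N`, with witness `A` -/
def ChainCond (M : Matroid α) (N A : Set α) : Prop :=
  ∀ F ⊆ M.E, ∀ G ⊆ M.E, Flacet M N F → Flacet M N G →
    (A ⊆ F → A ⊆ G → F ⊆ G ∨ G ⊆ F) ∧
    (¬ A ⊆ F → ¬ A ⊆ G → F ⊆ G ∨ G ⊆ F) ∧
    (A ⊆ F → ¬ A ⊆ G → F ∩ G ⊆ ∅ ∨ N ⊆ F ∪ G)

/-- the property expressed by the sentence -/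
def Good (M : Matroid α) : Prop :=
  ∀ N ⊆ M.E, Comp M N → ∃ A ⊆ M.E, ChainCond M N A

end Run7.h185.LPM
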