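import Mathlib
import Pool.Agent.Run7.h185.LPM.Rank

/-!
A non-basis of the right size of a connected matroid violates a flacet inequality.
-/

universe u

namespace Run7.h185.LPM

open Set Matroid

variable {α : Type u} {M : Matroid α}

lemma split_restrict [M.RankFinite] {X U V F : Set α} (h : Split M ∅ X U V) (hF : F ⊆ X) :
    Split M ∅ F (U ∩ F) (V ∩ F) := by
  have hUV : U ∩ V ⊆ ∅ := h.inter
  refine split_of_le (empty_subset _) (empty_subset _) inter_subset_right inter_subset_right
    ?_ ?_ ?_
  · intro x hx
    exact hUV ⟨hx.1.1, hx.2.1⟩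
  · intro x hx
    rcases h.union (hF hx) with h1 | h1
    · exact Or.inl ⟨h1, hx⟩
    · exact Or.inr ⟨h1, hx⟩
  · have h1 := rk_submod M F U
    have h2 := rk_submod M (F ∪ U) V
    have h3 : (F ∪ U) ∩ V = V ∩ F := by
      ext x
      simp only [mem_inter_iff, mem_union]
      constructor
      · rintro ⟨h4 | h4, h5⟩
        · exact ⟨h5, h4⟩
        · exact absurd (hUV ⟨h4, h5⟩) (by simp)
      · rintro ⟨h4, h5⟩
        exact ⟨Or.inl h5, h4⟩
    have h4 : rk M X ≤ rk M (F ∪ U ∪ V) := rk_mono M (by
      intro x hx
      rcases h.union hx with h1 | h1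
      · exact Or.inl (Or.inr h1)
      · exact Or.inr h1)
    have h5 := h.mod
    rw [h3] at h2
    rw [inter_comm F U] at h1
    rw [rk_empty] at *
    omega

lemma exists_flacet [M.Finite] {N B : Set α} (hNE : N ⊆ M.E) (hN : Conn M N) (hB : B ⊆ N)
    (hcard : B.ncard = rk M N) (hdep : ¬ M.Indep B) :
    ∃ F, Flacet M N F ∧ rk M F < (B ∩ F).ncard := by
  classical
  have hfinN : N.Finite := M.ground_finite.subset hNE
  have hfinB : B.Finite := hfinN.subset hB
  -- a minimal violated set is connected
  have hBS : rk M B < (B ∩ B).ncard := by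
    rw [inter_self]
    by_contra h
    push Not at h
    exact hdep (indep_of_rk hfinB h)
  obtain ⟨F₀, hF₀, hmin⟩ := Set.exists_min_image
    {F : Set α | F ⊆ N ∧ rk M F < (B ∩ F).ncard} Set.ncard
    (hfinN.finite_subsets.subset (fun F hF => hF.1)) ⟨B, hB, hBS⟩
  have hc₀ : Conn M F₀ := by
    constructor
    · by_contra h
      rw [Set.not_nonempty_iff_eq_empty] at h
      have := hF₀.2
      rw [h] at this
      simp at this
    · intro X Y hs
      by_contra hcon
      push Not at hcon
      have h1 := card_mod hfinB X Y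
      have h2 : X ∩ Y = ∅ := subset_empty_iff.1 hs.inter
      have h3 : X ∪ Y = F₀ := (union_subset hs.XN hs.YN).antisymm hs.union
      rw [h2, h3] at h1
      have h4 := hs.mod
      rw [rk_empty] at h4
      have h5 := hF₀.2
      simp only [inter_empty, ncard_empty] at h1
      have key : ∀ X Y : Set α, X ∩ Y = ∅ → X ∪ Y = F₀ → ¬ Y ⊆ ∅ → rk M X < (B ∩ X).ncard →
          False := by
        intro X Y h2 h3 hY h6
        have h7 := hmin X ⟨by rw [← h3] at hF₀; exact subset_union_left.trans hF₀.1, h6⟩
        have h8 : X ⊂ F₀ := by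
          refine ⟨by rw [← h3]; exact subset_union_left, fun h9 => hY ?_⟩
          intro y hy
          have : y ∈ X := h9 (by rw [← h3]; exact Or.inr hy)
          rw [← h2]
          exact ⟨this, hy⟩
        have h9 := Set.ncard_lt_ncard h8 (hfinN.subset hF₀.1)
        omega
      by_cases h6 : rk M X < (B ∩ X).ncard
      · exact key X Y h2 h3 hcon.2 h6
      · have h7 : rk M Y < (B ∩ Y).ncard := by omega
        exact key Y X (by rw [inter_comm]; exact h2) (by rw [union_comm]; exact h3) hcon.1 h7
  -- a maximal connected violated set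
  obtain ⟨F, hF, hmax⟩ := Set.exists_max_image
    {F : Set α | F ⊆ N ∧ rk M F < (B ∩ F).ncard ∧ Conn M F} Set.ncard
    (hfinN.finite_subsets.subset (fun F hF => hF.1)) ⟨F₀, hF₀.1, hF₀.2, hc₀⟩
  obtain ⟨hFN, hFr, hFc⟩ := hF
  have hBF : (B ∩ F).ncard ≤ B.ncard := ncard_le_ncard inter_subset_left hfinB
  refine ⟨F, ⟨hFN, hFc, ?_, ?_, by omega⟩, hFr⟩
  · intro hi
    have h1 := rk_indep hi
    have h2 : (B ∩ F).ncard ≤ F.ncard := ncard_le_ncard inter_subset_right (hfinN.subset hFN)
    omega
  · have key : ∀ X Y : Set α, Split M F N X Y → ¬ X ⊆ F → ¬ rk M X < (B ∩ X).ncard := by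
      intro X Y hs hXF hX
      have hXc : Conn M X := by
        refine ⟨hFc.nonempty.mono hs.FX, ?_⟩
        have key2 : ∀ U V : Set α, Split M ∅ X U V → V ∩ F ⊆ ∅ → V ⊆ ∅ := by
          intro U V hUV hVF
          have hFU : F ⊆ U := by
            intro x hx
            rcases hUV.union (hs.FX hx) with h1 | h1
            · exact h1
            · exact absurd (hVF ⟨h1, hx⟩) (by simp)
          have hsN : Split M ∅ N (U ∪ Y) V := by
            refine split_of_le (empty_subset _) (empty_subset _)
              (union_subset (hUV.XN.trans hs.XN) hs.YN) (hUV.YN.trans hs.XN) ?_ ?_ ?_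
            · rintro x ⟨h1 | h1, h2⟩
              · exact hUV.inter ⟨h1, h2⟩
              · exact hVF ⟨h2, hs.inter ⟨hUV.YN h2, h1⟩⟩
            · intro x hx
              rcases hs.union hx with h1 | h1
              · rcases hUV.union h1 with h2 | h2
                · exact Or.inl (Or.inl h2)
                · exact Or.inr h2
              · exact Or.inl (Or.inr h1)
            · have h1 := rk_submod M U Y
              have h2 : rk M F ≤ rk M (U ∩ Y) := rk_mono M (subset_inter hFU hs.FY)
              have h3 := hUV.mod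
              have h4 := hs.mod
              rw [rk_empty] at *
              omega
          rcases hN.conn _ _ hsN with h1 | h1
          · obtain ⟨x, hx⟩ := hFc.nonempty
            exact absurd (h1 (Or.inl (hFU hx))) (by simp)
          · exact h1
        intro U V hUV
        rcases hFc.conn _ _ (split_restrict hUV hs.FX) with h1 | h1
        · exact Or.inl (key2 V U hUV.symm h1)
        · exact Or.inr (key2 U V hUV h1)
      have h1 := hmax X ⟨hs.XN, hX, hXc⟩
      have h2 : F ⊂ X := ⟨hs.FX, hXF⟩
      have h3 := Set.ncard_lt_ncard h2 (hfinN.subset hs.XN)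
      omega
    intro X Y hs
    by_contra hcon
    push Not at hcon
    have h1 := key X Y hs hcon.1
    have h2 := key Y X hs.symm hcon.2
    have h3 := card_mod hfinB X Y
    have h4 : X ∩ Y = F := hs.inter.antisymm (subset_inter hs.FX hs.FY)
    have h5 : X ∪ Y = N := (union_subset hs.XN hs.YN).antisymm hs.union
    rw [h4, h5, inter_eq_left.2 hB] at h3
    have h6 := hs.mod
    omega

end Run7.h185.LPM
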