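import Mathlib
import Pool.Agent.Run7.h185.LPM.Flacet

/-!
A matroid satisfying the chain condition has a good linear order.
-/

universe u

namespace Run7.h185.LPM

open Set Matroid

variable {α : Type u} {M : Matroid α}

/-- the elements of position less than `k` -/
def low (pos : α → ℕ) (k : ℕ) : Set α := {x | pos x < k}

/-- an order on `S` for which the initial and final segments detect the bases of `M|S` -/
def GoodOrder (M : Matroid α) (S : Set α) (pos : α → ℕ) : Prop :=
  Set.InjOn pos S ∧ ∀ B ⊆ S, B.ncard = rk M S →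
    (∀ k, (B ∩ (S ∩ low pos k)).ncard ≤ rk M (S ∩ low pos k) ∧
      (B ∩ (S \ low pos k)).ncard ≤ rk M (S \ low pos k)) → M.Indep B

lemma exists_bound {S : Set α} (hS : S.Finite) (p : α → ℕ) : ∃ K, ∀ x ∈ S, p x < K := by
  obtain ⟨K, hK⟩ := (hS.image p).bddAbove
  exact ⟨K + 1, fun x hx => Nat.lt_succ_of_le (hK (mem_image_of_mem p hx))⟩

lemma exists_inj {S : Set α} (hS : S.Finite) : ∃ p : α → ℕ, Set.InjOn p S := by
  classical
  have : Finite S := hS
  obtain ⟨n, ⟨e⟩⟩ := Finite.exists_equiv_fin S
  refine ⟨fun x => if h : x ∈ S then (e ⟨x, h⟩ : ℕ) else 0, ?_⟩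
  intro x hx y hy hxy
  simp only [hx, hy, dif_pos] at hxy
  have := e.injective (Fin.ext hxy)
  simpa using this

lemma goodOrder_union [M.Finite] {S X Y : Set α} {p₁ p₂ : α → ℕ} (hSE : S ⊆ M.E)
    (hs : Split M ∅ S X Y) (h₁ : GoodOrder M X p₁) (h₂ : GoodOrder M Y p₂) :
    ∃ pos, GoodOrder M S pos := by
  classical
  have hfinS : S.Finite := M.ground_finite.subset hSE
  have hfinX := hfinS.subset hs.XN
  have hfinY := hfinS.subset hs.YN
  obtain ⟨K, hK⟩ := exists_bound hfinX p₁
  have hXY : ∀ x, x ∈ X → x ∈ Y → False := fun x h1 h2 => absurd (hs.inter ⟨h1, h2⟩) (by simp)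
  have hSXY : S = X ∪ Y := hs.union.antisymm (union_subset hs.XN hs.YN)
  set pos : α → ℕ := fun x => if x ∈ X then p₁ x else K + p₂ x with hpos
  have posX : ∀ x ∈ X, pos x = p₁ x := fun x hx => by simp [hpos, hx]
  have posY : ∀ x ∈ Y, pos x = K + p₂ x := fun x hx => by
    have : x ∉ X := fun h => hXY x h hx
    simp [hpos, this]
  have hmod : rk M X + rk M Y = rk M S := by
    have := hs.mod
    rw [rk_empty] at this
    omega
  have low1 : ∀ k ≤ K, S ∩ low pos k = X ∩ low p₁ k := by
    intro k hk
    ext x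
    simp only [low, mem_inter_iff, mem_ofPred_eq]
    constructor
    · rintro ⟨hx, h⟩
      rw [hSXY] at hx
      rcases hx with hx | hx
      · rw [posX x hx] at h
        exact ⟨hx, h⟩
      · rw [posY x hx] at h
        omega
    · rintro ⟨hx, h⟩
      refine ⟨hs.XN hx, ?_⟩
      rw [posX x hx]
      exact h
  have up1 : ∀ k ≤ K, S \ low pos k = (X \ low p₁ k) ∪ Y := by
    intro k hk
    ext x
    simp only [low, mem_sdiff, mem_union, mem_ofPred_eq]
    constructor
    · rintro ⟨hx, h⟩
      rw [hSXY] at hx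
      rcases hx with hx | hx
      · rw [posX x hx] at h
        exact Or.inl ⟨hx, h⟩
      · exact Or.inr hx
    · rintro (⟨hx, h⟩ | hx)
      · refine ⟨hs.XN hx, ?_⟩
        rw [posX x hx]
        exact h
      · refine ⟨hs.YN hx, ?_⟩
        rw [posY x hx]
        omega
  have low2 : ∀ k, S ∩ low pos (K + k) = X ∪ (Y ∩ low p₂ k) := by
    intro k
    ext x
    simp only [low, mem_inter_iff, mem_union, mem_ofPred_eq]
    constructor
    · rintro ⟨hx, h⟩
      rw [hSXY] at hx
      rcases hx with hx | hx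
      · exact Or.inl hx
      · rw [posY x hx] at h
        exact Or.inr ⟨hx, by omega⟩
    · rintro (hx | ⟨hx, h⟩)
      · refine ⟨hs.XN hx, ?_⟩
        rw [posX x hx]
        have := hK x hx
        omega
      · refine ⟨hs.YN hx, ?_⟩
        rw [posY x hx]
        omega
  have up2 : ∀ k, S \ low pos (K + k) = Y \ low p₂ k := by
    intro k
    ext x
    simp only [low, mem_sdiff, mem_ofPred_eq]
    constructor
    · rintro ⟨hx, h⟩
      rw [hSXY] at hx
      rcases hx with hx | hx
      · rw [posX x hx] at h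
        have := hK x hx
        omega
      · rw [posY x hx] at h
        exact ⟨hx, by omega⟩
    · rintro ⟨hx, h⟩
      refine ⟨hs.YN hx, ?_⟩
      rw [posY x hx]
      omega
  refine ⟨pos, ?_, ?_⟩
  · intro x hx y hy hxy
    rw [hSXY] at hx hy
    rcases hx with hx | hx <;> rcases hy with hy | hy
    · rw [posX x hx, posX y hy] at hxy
      exact h₁.1 hx hy hxy
    · rw [posX x hx, posY y hy] at hxy
      have := hK x hx
      omega
    · rw [posY x hx, posX y hy] at hxy
      have := hK y hy
      omega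
    · rw [posY x hx, posY y hy] at hxy
      exact h₂.1 hx hy (by omega)
  · intro B hBS hBc hB
    have hfinB := hfinS.subset hBS
    -- sizes
    have hcardXY : ∀ U V : Set α, U ∩ V = ∅ → (B ∩ (U ∪ V)).ncard = (B ∩ U).ncard + (B ∩ V).ncard := by
      intro U V hUV
      have := card_mod hfinB U V
      rw [hUV] at this
      simpa using this
    have hXYe : X ∩ Y = ∅ := subset_empty_iff.1 hs.inter
    have h1 : (B ∩ X).ncard ≤ rk M X := by
      have := (hB (K + 0)).1
      have h2 : S ∩ low pos (K + 0) = X := by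
        rw [low2]
        simp [low]
      rw [h2] at this
      exact this
    have h2 : (B ∩ Y).ncard ≤ rk M Y := by
      have := (hB (K + 0)).2
      have h2 : S \ low pos (K + 0) = Y := by
        rw [up2]
        simp [low]
      rw [h2] at this
      exact this
    have h3 : (B ∩ X).ncard + (B ∩ Y).ncard = rk M S := by
      rw [← hcardXY X Y hXYe, ← hSXY, inter_eq_left.2 hBS, hBc]
    have h4 : (B ∩ X).ncard = rk M X := by omega
    have h5 : (B ∩ Y).ncard = rk M Y := by omega
    have i1 : M.Indep (B ∩ X) := by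
      refine h₁.2 (B ∩ X) inter_subset_right h4 ?_
      intro k
      have e1 : B ∩ X ∩ (X ∩ low p₁ k) = B ∩ (X ∩ low p₁ k) := by
        ext; simp only [mem_inter_iff]; tauto
      have e2 : B ∩ X ∩ (X \ low p₁ k) = B ∩ (X \ low p₁ k) := by
        ext; simp only [mem_inter_iff, mem_sdiff]; tauto
      rw [e1, e2]
      rcases le_total k K with hk | hk
      · have a1 := (hB k).1
        have a2 := (hB k).2
        rw [low1 k hk] at a1
        rw [up1 k hk, hcardXY _ _ (by
          ext x; simp only [mem_inter_iff, mem_sdiff, mem_empty_iff_false, iff_false]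
          rintro ⟨⟨h, -⟩, h'⟩; exact hXY x h h')] at a2
        have a3 := rk_union_le M (X \ low p₁ k) Y
        exact ⟨a1, by omega⟩
      · have e3 : X ∩ low p₁ k = X := by
          apply inter_eq_left.2
          intro x hx
          exact lt_of_lt_of_le (hK x hx) hk
        have e4 : X \ low p₁ k = ∅ := by
          ext x; simp only [mem_sdiff, mem_empty_iff_false, iff_false, not_and, not_not]
          intro hx
          exact lt_of_lt_of_le (hK x hx) hk
        rw [e3, e4]
        simp [h1]
    have i2 : M.Indep (B ∩ Y) := by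
      refine h₂.2 (B ∩ Y) inter_subset_right h5 ?_
      intro k
      have e1 : B ∩ Y ∩ (Y ∩ low p₂ k) = B ∩ (Y ∩ low p₂ k) := by
        ext; simp only [mem_inter_iff]; tauto
      have e2 : B ∩ Y ∩ (Y \ low p₂ k) = B ∩ (Y \ low p₂ k) := by
        ext; simp only [mem_inter_iff, mem_sdiff]; tauto
      rw [e1, e2]
      have a1 := (hB (K + k)).1
      have a2 := (hB (K + k)).2
      rw [up2 k] at a2
      rw [low2 k, hcardXY _ _ (by
        ext x; simp only [mem_inter_iff, mem_empty_iff_false, iff_false]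
        rintro ⟨h, ⟨h', -⟩⟩; exact hXY x h h')] at a1
      have a3 := rk_union_le M X (Y ∩ low p₂ k)
      exact ⟨by omega, a2⟩
    have b1 : M.IsBasis (B ∩ X) X := isBasis_of_rk i1 inter_subset_right (hs.XN.trans hSE) h4.ge
    have b2 : M.IsBasis (B ∩ Y) Y := isBasis_of_rk i2 inter_subset_right (hs.YN.trans hSE) h5.ge
    apply indep_of_rk hfinB
    have h10 : rk M ((B ∩ X) ∪ (B ∩ Y)) = rk M (X ∪ Y) := by
      unfold rk
      rw [b1.eRk_eq_eRk_union, union_comm, b2.eRk_eq_eRk_union, union_comm]
    rw [← inter_union_distrib_left, ← hSXY, inter_eq_left.2 hBS] at h10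
    omega

lemma goodOrder_conn [M.Finite] {S A : Set α} (hSE : S ⊆ M.E) (hc : Conn M S)
    (hch : ChainCond M S A) : ∃ pos, GoodOrder M S pos := by
  classical
  have hfinS : S.Finite := M.ground_finite.subset hSE
  set 𝒞 : Set (Set α) := {C | (Flacet M S C ∧ A ⊆ C) ∨ ∃ F, Flacet M S F ∧ ¬ A ⊆ F ∧ C = S \ F}
    with h𝒞
  have hfin𝒞 : 𝒞.Finite := by
    refine hfinS.finite_subsets.subset ?_
    rintro C (⟨h, -⟩ | ⟨F, h, -, rfl⟩)
    · exact h.sub
    · exact sdiff_subset
  have hcomp : ∀ C ∈ 𝒞, ∀ D ∈ 𝒞, C ⊆ D ∨ D ⊆ C := by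
    rintro C (⟨hC, hAC⟩ | ⟨F, hF, hAF, rfl⟩) D (⟨hD, hAD⟩ | ⟨G, hG, hAG, rfl⟩)
    · exact (hch C (hC.sub.trans hSE) D (hD.sub.trans hSE) hC hD).1 hAC hAD
    · rcases (hch C (hC.sub.trans hSE) G (hG.sub.trans hSE) hC hG).2.2 hAC hAG with h | h
      · left
        intro x hx
        exact ⟨hC.sub hx, fun h' => absurd (h ⟨hx, h'⟩) (by simp)⟩
      · right
        rintro x ⟨hx, hx'⟩
        rcases h hx with h1 | h1
        · exact h1
        · exact absurd h1 hx'
    · rcases (hch D (hD.sub.trans hSE) F (hF.sub.trans hSE) hD hF).2.2 hAD hAF with h | h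
      · right
        intro x hx
        exact ⟨hD.sub hx, fun h' => absurd (h ⟨hx, h'⟩) (by simp)⟩
      · left
        rintro x ⟨hx, hx'⟩
        rcases h hx with h1 | h1
        · exact h1
        · exact absurd h1 hx'
    · rcases (hch F (hF.sub.trans hSE) G (hG.sub.trans hSE) hF hG).2.1 hAF hAG with h | h
      · right
        exact sdiff_subset_sdiff_right h
      · left
        exact sdiff_subset_sdiff_right h
  set c : α → ℕ := fun x => {C ∈ 𝒞 | x ∉ C}.ncard with hcdef
  have hclt : ∀ C ∈ 𝒞, ∀ x ∈ C, ∀ y, y ∉ C → c x < c y := by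
    intro C hC x hx y hy
    apply Set.ncard_lt_ncard
    · refine ⟨?_, fun h => ?_⟩
      · rintro D ⟨hD, hxD⟩
        refine ⟨hD, fun hyD => ?_⟩
        rcases hcomp C hC D hD with h | h
        · exact hxD (h hx)
        · exact hy (h hyD)
      · exact (h (show C ∈ {C ∈ 𝒞 | y ∉ C} from ⟨hC, hy⟩)).2 hx
    · exact hfin𝒞.subset (sep_subset _ _)
  obtain ⟨ι, hι⟩ := exists_inj hfinS
  obtain ⟨K, hK⟩ := exists_bound hfinS ι
  set pos : α → ℕ := fun x => K * c x + ι x with hpos
  have hposlt : ∀ C ∈ 𝒞, ∀ x ∈ C, x ∈ S → ∀ y, y ∉ C → pos x < pos y := by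
    intro C hC x hx hxS y hy
    have h1 := hclt C hC x hx y hy
    have h2 := hK x hxS
    have h3 : K * (c x + 1) ≤ K * c y := Nat.mul_le_mul_left K h1
    simp only [hpos]
    rw [Nat.mul_add, Nat.mul_one] at h3
    omega
  have hinj : Set.InjOn pos S := by
    intro x hx y hy hxy
    apply hι hx hy
    have h1 := hK x hx
    have h2 := hK y hy
    simp only [hpos] at hxy
    have h3 : (K * c x + ι x) % K = (K * c y + ι y) % K := by rw [hxy]
    rwa [Nat.mul_add_mod, Nat.mul_add_mod, Nat.mod_eq_of_lt h1, Nat.mod_eq_of_lt h2] at h3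
  have hseg : ∀ C ∈ 𝒞, C ⊆ S → (S \ C).Nonempty → ∃ k, S ∩ low pos k = C := by
    intro C hC hCS hne
    obtain ⟨y, hy, hmin⟩ := Set.exists_min_image (S \ C) pos (hfinS.subset sdiff_subset) hne
    refine ⟨pos y, ?_⟩
    ext x
    simp only [low, mem_inter_iff, mem_ofPred_eq]
    constructor
    · rintro ⟨hxS, hx⟩
      by_contra hxC
      have := hmin x ⟨hxS, hxC⟩
      omega
    · intro hx
      exact ⟨hCS hx, hposlt C hC x hx (hCS hx) y hy.2⟩
  refine ⟨pos, hinj, ?_⟩
  intro B hBS hBc hB
  by_contra hdep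
  obtain ⟨F, hF, hlt⟩ := exists_flacet hSE hc hBS hBc hdep
  have hne : (S \ F).Nonempty := by
    rw [Set.sdiff_nonempty]
    intro h
    have := hF.lt
    rw [hF.sub.antisymm h] at this
    omega
  by_cases hA : A ⊆ F
  · obtain ⟨k, hk⟩ := hseg F (Or.inl ⟨hF, hA⟩) hF.sub hne
    have := (hB k).1
    rw [hk] at this
    omega
  · obtain ⟨k, hk⟩ := hseg (S \ F) (Or.inr ⟨F, hF, hA, rfl⟩) sdiff_subset (by
      obtain ⟨x, hx⟩ := hF.conn.nonempty
      exact ⟨x, hF.sub hx, fun h => h.2 hx⟩)
    have h1 := (hB k).2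
    have h2 : S \ low pos k = F := by
      ext x
      simp only [mem_sdiff]
      constructor
      · rintro ⟨hxS, hx⟩
        by_contra hxF
        have : x ∈ S ∩ low pos k := by rw [hk]; exact ⟨hxS, hxF⟩
        exact hx this.2
      · intro hx
        refine ⟨hF.sub hx, fun h => ?_⟩
        have : x ∈ S ∩ low pos k := ⟨hF.sub hx, h⟩
        rw [hk] at this
        exact this.2 hx
    rw [h2] at h1
    omega

theorem exists_goodOrder [M.Finite] (h : Good M) : ∀ n : ℕ, ∀ S ⊆ M.E, S.ncard ≤ n →
    (∃ Z, Split M ∅ M.E S Z) → ∃ pos, GoodOrder M S pos := by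
  intro n
  induction n with
  | zero =>
    intro S hSE hS _
    have hfinS : S.Finite := M.ground_finite.subset hSE
    have : S = ∅ := (Set.ncard_eq_zero hfinS).1 (by omega)
    subst this
    refine ⟨fun _ => 0, by simp, ?_⟩
    intro B hB _ _
    rw [subset_empty_iff.1 hB]
    exact M.empty_indep
  | succ n ih =>
    intro S hSE hS hsep
    have hfinS : S.Finite := M.ground_finite.subset hSE
    by_cases hc : Conn M S
    · obtain ⟨A, -, hA⟩ := h S hSE ⟨hSE, hc, hsep⟩
      exact goodOrder_conn hSE hc hA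
    · by_cases hne : S.Nonempty
      · have : ¬ ConnMinor M ∅ S := fun h' => hc ⟨hne, h'⟩
        unfold ConnMinor at this
        push Not at this
        obtain ⟨X, Y, hs, hX, hY⟩ := this
        obtain ⟨Z, hZ⟩ := hsep
        have key : ∀ X Y : Set α, Split M ∅ S X Y → ¬ Y ⊆ ∅ → ∃ pos, GoodOrder M X pos := by
          intro X Y hs hY
          apply ih X (hs.XN.trans hSE)
          · have : X ⊂ S := by
              refine ⟨hs.XN, fun h' => hY ?_⟩
              intro y hy
              exact hs.inter ⟨h' (hs.YN hy), hy⟩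
            have := Set.ncard_lt_ncard this hfinS
            omega
          · refine ⟨Y ∪ Z, ?_⟩
            refine split_of_le (empty_subset _) (empty_subset _) (hs.XN.trans hSE)
              (union_subset (hs.YN.trans hSE) hZ.YN) ?_ ?_ ?_
            · rintro x ⟨hx, hx' | hx'⟩
              · exact hs.inter ⟨hx, hx'⟩
              · exact hZ.inter ⟨hs.XN hx, hx'⟩
            · intro x hx
              rcases hZ.union hx with h1 | h1
              · rcases hs.union h1 with h2 | h2
                · exact Or.inl h2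
                · exact Or.inr (Or.inl h2)
              · exact Or.inr (Or.inr h1)
            · have h1 := rk_union_le M Y Z
              have h2 := hs.mod
              have h3 := hZ.mod
              have h4 := rk_empty M
              omega
        obtain ⟨p₁, h₁⟩ := key X Y hs hY
        obtain ⟨p₂, h₂⟩ := key Y X hs.symm hX
        exact goodOrder_union hSE hs h₁ h₂
      · rw [Set.not_nonempty_iff_eq_empty] at hne
        apply ih S hSE _ hsep
        rw [hne]
        simp

end Run7.h185.LPM
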