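import Mathlib
import Pool.Agent.Run7.h185.LPM.Order

/-!
In a lattice path matroid the flacets of a component are initial or final segments.
-/

universe u

namespace Run7.h185.LPM

open Set Matroid

variable {α : Type u} {M : Matroid α}

/-- `pos` exhibits `M` as a lattice path matroid with lower heights `p` and upper heights `q` -/
structure LPOrder (M : Matroid α) (pos : α → ℕ) (n r : ℕ) (p q : ℕ → ℕ) : Prop where
  inj : Set.InjOn pos M.E
  lt : ∀ x ∈ M.E, pos x < n
  qn : q n = r
  base : ∀ B ⊆ M.E, M.IsBase B ↔ B.ncard = r ∧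
    ∀ k, p k ≤ (B ∩ low pos k).ncard ∧ (B ∩ low pos k).ncard ≤ q k

open Classical in
lemma ncard_insert_inter {B : Set α} (hB : B.Finite) {e : α} (he : e ∉ B) (L : Set α) :
    (insert e B ∩ L).ncard = (B ∩ L).ncard + if e ∈ L then 1 else 0 := by
  by_cases h : e ∈ L
  · rw [Set.insert_inter_of_mem h, Set.ncard_insert_of_notMem (fun h' => he h'.1)
      (hB.subset inter_subset_left)]
    simp [h]
  · rw [Set.insert_inter_of_notMem h]
    simp [h]

open Classical in
lemma ncard_exchange {B : Set α} (hB : B.Finite) {b e : α} (hb : b ∈ B) (he : e ∉ B)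
    (L : Set α) :
    (insert e (B \ {b}) ∩ L).ncard + (if b ∈ L then 1 else 0) =
      (B ∩ L).ncard + if e ∈ L then 1 else 0 := by
  have h1 := ncard_insert_inter (hB.subset (sdiff_subset : B \ {b} ⊆ B)) (e := e)
    (fun h => he h.1) L
  have h2 := ncard_insert_inter (hB.subset (sdiff_subset : B \ {b} ⊆ B)) (e := b)
    (fun h => h.2 rfl) L
  rw [Set.insert_sdiff_singleton, Set.insert_eq_of_mem hb] at h2
  omega

lemma ncard_low_split {B : Set α} (hB : B.Finite) (pos : α → ℕ) {s t : ℕ} (hst : s ≤ t) :
    (B ∩ low pos s).ncard + (B ∩ (low pos t \ low pos s)).ncard = (B ∩ low pos t).ncard := by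
  have h := card_mod hB (low pos s) (low pos t \ low pos s)
  have h1 : low pos s ∩ (low pos t \ low pos s) = ∅ := by
    ext x; simp
  have h2 : low pos s ∪ (low pos t \ low pos s) = low pos t := by
    apply Set.union_sdiff_cancel
    intro x hx
    exact lt_of_lt_of_le hx hst
  rw [h1, h2] at h
  simp only [inter_empty, ncard_empty] at h
  omega

section

variable [M.Finite] {pos : α → ℕ} {n r : ℕ} {p q : ℕ → ℕ}

lemma LPOrder.exch_up (h : LPOrder M pos n r p q) {B : Set α} (hB : M.IsBase B) {b e : α}
    (hb : b ∈ B) (he : e ∉ B) (heE : e ∈ M.E) (hbe : pos b < pos e) :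
    M.IsBase (insert e (B \ {b})) ↔
      ∀ k, pos b < k → k ≤ pos e → p k < (B ∩ low pos k).ncard := by
  classical
  have hfin := hB.finite
  have hsub : insert e (B \ {b}) ⊆ M.E :=
    insert_subset heE (sdiff_subset.trans hB.subset_ground)
  have hB' := (h.base B hB.subset_ground).1 hB
  rw [h.base _ hsub]
  constructor
  · rintro ⟨-, h2⟩ k hk1 hk2
    have h3 := ncard_exchange hfin hb he (low pos k)
    have h4 : b ∈ low pos k := hk1
    have h5 : e ∉ low pos k := by simp only [low, mem_ofPred_eq]; omega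
    rw [if_pos h4, if_neg h5] at h3
    have := (h2 k).1
    omega
  · intro h2
    refine ⟨?_, fun k => ?_⟩
    · have h3 := ncard_exchange hfin hb he univ
      simp only [inter_univ, mem_univ, if_true] at h3
      omega
    · have h3 := ncard_exchange hfin hb he (low pos k)
      have h4 := hB'.2 k
      by_cases h5 : pos b < k
      · by_cases h6 : pos e < k
        · have h7 : b ∈ low pos k := h5
          have h8 : e ∈ low pos k := h6
          rw [if_pos h7, if_pos h8] at h3
          omega
        · have h7 : b ∈ low pos k := h5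
          have h8 : e ∉ low pos k := h6
          rw [if_pos h7, if_neg h8] at h3
          have := h2 k h5 (by omega)
          omega
      · have h7 : b ∉ low pos k := h5
        have h8 : e ∉ low pos k := by simp only [low, mem_ofPred_eq]; omega
        rw [if_neg h7, if_neg h8] at h3
        omega

lemma LPOrder.exch_down (h : LPOrder M pos n r p q) {B : Set α} (hB : M.IsBase B) {b e : α}
    (hb : b ∈ B) (he : e ∉ B) (heE : e ∈ M.E) (hbe : pos e < pos b) :
    M.IsBase (insert e (B \ {b})) ↔
      ∀ k, pos e < k → k ≤ pos b → (B ∩ low pos k).ncard < q k := by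
  classical
  have hfin := hB.finite
  have hsub : insert e (B \ {b}) ⊆ M.E :=
    insert_subset heE (sdiff_subset.trans hB.subset_ground)
  have hB' := (h.base B hB.subset_ground).1 hB
  rw [h.base _ hsub]
  constructor
  · rintro ⟨-, h2⟩ k hk1 hk2
    have h3 := ncard_exchange hfin hb he (low pos k)
    have h4 : e ∈ low pos k := hk1
    have h5 : b ∉ low pos k := by simp only [low, mem_ofPred_eq]; omega
    rw [if_pos h4, if_neg h5] at h3
    have := (h2 k).2
    omega
  · intro h2
    refine ⟨?_, fun k => ?_⟩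
    · have h3 := ncard_exchange hfin hb he univ
      simp only [inter_univ, mem_univ, if_true] at h3
      omega
    · have h3 := ncard_exchange hfin hb he (low pos k)
      have h4 := hB'.2 k
      by_cases h5 : pos e < k
      · by_cases h6 : pos b < k
        · have h7 : e ∈ low pos k := h5
          have h8 : b ∈ low pos k := h6
          rw [if_pos h7, if_pos h8] at h3
          omega
        · have h7 : e ∈ low pos k := h5
          have h8 : b ∉ low pos k := h6
          rw [if_pos h7, if_neg h8] at h3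
          have := h2 k h5 (by omega)
          omega
      · have h7 : e ∉ low pos k := h5
        have h8 : b ∉ low pos k := by simp only [low, mem_ofPred_eq]; omega
        rw [if_neg h7, if_neg h8] at h3
        omega

/-- exchanging into a tight base never gives a base -/
lemma no_exchange {F B : Set α} (hB : M.IsBase B) (hBF : (B ∩ F).ncard = rk M F) {b e : α}
    (hb : b ∈ B) (hbF : b ∉ F) (he : e ∉ B) (heF : e ∈ F) :
    ¬ M.IsBase (insert e (B \ {b})) := by
  classical
  intro h
  have h1 := ncard_exchange hB.finite hb he F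
  rw [if_neg hbF, if_pos heF] at h1
  have h2 : (insert e (B \ {b}) ∩ F).ncard ≤ rk M F :=
    ncard_le_rk (h.indep.subset inter_subset_left) inter_subset_right
  omega

lemma exists_exchange {F F' B : Set α} (hFE : F ⊆ M.E) (hF' : F' ⊆ F) (hB : M.IsBase B)
    (hBF : (B ∩ F).ncard = rk M F) (hlt : (B ∩ F').ncard < rk M F') :
    ∃ e ∈ F', e ∉ B ∧ ∃ f ∈ B, f ∈ F ∧ f ∉ F' ∧ M.IsBase (insert e (B \ {f})) := by
  classical
  have hfin := hB.finite
  obtain ⟨I, hI⟩ := M.exists_isBasis F' (hF'.trans hFE)
  have hcard : (B ∩ F').encard < I.encard := by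
    rw [hI.encard_eq_eRk, ← coe_rk, ← (hfin.subset inter_subset_left).cast_ncard_eq]
    exact_mod_cast hlt
  obtain ⟨e, ⟨heI, heB⟩, hins⟩ := (hB.indep.subset (inter_subset_left : B ∩ F' ⊆ B)).augment
    hI.indep hcard
  have heF' : e ∈ F' := hI.subset heI
  have heB' : e ∉ B := fun h => heB ⟨h, heF'⟩
  obtain ⟨B', hB', hsub1, hsub2⟩ := hins.exists_isBase_subset_union_isBase hB
  have heB'' : e ∈ B' := hsub1 (mem_insert _ _)
  have hsub3 : B' ⊆ insert e B := by
    intro x hx
    rcases hsub2 hx with h1 | h1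
    · rcases h1 with h1 | h1
      · exact Or.inl h1
      · exact Or.inr h1.1
    · exact Or.inr h1
  have hcardB : B'.ncard = B.ncard := hB'.ncard_eq_ncard_of_isBase hB
  have : ¬ B ⊆ B' := by
    intro hBB'
    have h1 : insert e B ⊆ B' := insert_subset heB'' hBB'
    have h2 := ncard_le_ncard h1 hB'.finite
    rw [ncard_insert_of_notMem heB' hfin] at h2
    omega
  rw [Set.not_subset] at this
  obtain ⟨f, hfB, hfB'⟩ := this
  have hsub4 : B' ⊆ insert e (B \ {f}) := by
    intro x hx
    rcases hsub3 hx with h1 | h1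
    · exact Or.inl h1
    · refine Or.inr ⟨h1, ?_⟩
      rintro rfl
      exact hfB' hx
  have hEq : B' = insert e (B \ {f}) := by
    apply Set.eq_of_subset_of_ncard_le hsub4 _ ((hfin.subset sdiff_subset).insert e)
    have := ncard_exchange hfin hfB heB' univ
    simp only [inter_univ, mem_univ, if_true] at this
    omega
  have hfF' : f ∉ F' := fun h => hfB' (hsub1 (Or.inr ⟨hfB, h⟩))
  refine ⟨e, heF', heB', f, hfB, ?_, hfF', hEq ▸ hB'⟩
  by_contra hfF
  exact no_exchange hB hBF hfB hfF heB' (hF' heF') (hEq ▸ hB')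

lemma cut_exchange {F B : Set α} (hFE : F ⊆ M.E) (hF : Conn M F) (hB : M.IsBase B)
    (hBF : (B ∩ F).ncard = rk M F) (L : Set α) (h1 : (F ∩ L).Nonempty)
    (h2 : (F \ L).Nonempty) :
    ∃ e ∈ F, e ∉ B ∧ ∃ f ∈ B, f ∈ F ∧ (e ∈ L ∧ f ∉ L ∨ e ∉ L ∧ f ∈ L) ∧
      M.IsBase (insert e (B \ {f})) := by
  have hns : ¬ Split M ∅ F (F ∩ L) (F \ L) := by
    intro hs
    rcases hF.conn _ _ hs with h | h
    · obtain ⟨x, hx⟩ := h1
      exact absurd (h hx) (by simp)
    · obtain ⟨x, hx⟩ := h2
      exact absurd (h hx) (by simp)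
  have hgt : rk M F < rk M (F ∩ L) + rk M (F \ L) := by
    by_contra h
    push Not at h
    apply hns
    refine split_of_le (empty_subset _) (empty_subset _) inter_subset_left sdiff_subset ?_ ?_ ?_
    · rintro x ⟨hx, hx'⟩
      exact absurd hx.2 hx'.2
    · intro x hx
      by_cases hxL : x ∈ L
      · exact Or.inl ⟨hx, hxL⟩
      · exact Or.inr ⟨hx, hxL⟩
    · omega
  have hcard := card_mod hB.finite (F ∩ L) (F \ L)
  have e1 : F ∩ L ∩ (F \ L) = ∅ := by
    ext x; simp only [mem_inter_iff, mem_sdiff, mem_empty_iff_false, iff_false]; tauto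
  have e2 : F ∩ L ∪ (F \ L) = F := Set.inter_union_sdiff F L
  rw [e1, e2] at hcard
  simp only [inter_empty, ncard_empty] at hcard
  by_cases h3 : (B ∩ (F ∩ L)).ncard < rk M (F ∩ L)
  · obtain ⟨e, heF', heB, f, hfB, hfF, hfF', hb⟩ :=
      exists_exchange hFE inter_subset_left hB hBF h3
    exact ⟨e, heF'.1, heB, f, hfB, hfF, Or.inl ⟨heF'.2, fun h => hfF' ⟨hfF, h⟩⟩, hb⟩
  · have h4 : (B ∩ (F \ L)).ncard < rk M (F \ L) := by omega
    obtain ⟨e, heF', heB, f, hfB, hfF, hfF', hb⟩ :=
      exists_exchange hFE sdiff_subset hB hBF h4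
    refine ⟨e, heF'.1, heB, f, hfB, hfF, Or.inr ⟨heF'.2, ?_⟩, hb⟩
    by_contra h
    exact hfF' ⟨hfF, h⟩

lemma LPOrder.exists_window (h : LPOrder M pos n r p q) {F : Set α} (hFE : F ⊆ M.E)
    (hF : Conn M F) (hdep : ¬ M.Indep F) :
    ∃ s t, s ≤ t ∧ F ⊆ low pos t \ low pos s ∧ rk M F + p s = q t := by
  classical
  have hfinF : F.Finite := M.ground_finite.subset hFE
  obtain ⟨I, hI⟩ := M.exists_isBasis F hFE
  obtain ⟨B, hB, hIB⟩ := hI.indep.exists_isBase_superset
  have hfinB := hB.finite
  have hBF : (B ∩ F).ncard = rk M F := by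
    apply le_antisymm
    · exact ncard_le_rk (hB.indep.subset inter_subset_left) inter_subset_right
    · rw [← hI.rk_eq']
      exact ncard_le_ncard (subset_inter hIB hI.subset) (hfinB.subset inter_subset_left)
  have hBc := (h.base B hB.subset_ground).1 hB
  obtain ⟨x₀, hx₀, hmin⟩ := Set.exists_min_image F pos hfinF hF.nonempty
  obtain ⟨x₁, hx₁, hmax⟩ := Set.exists_max_image F pos hfinF hF.nonempty
  -- the lower end of the window
  set s := Nat.findGreatest (fun k => p k = (B ∩ low pos k).ncard) (pos x₀) with hs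
  have hs1 : p s = (B ∩ low pos s).ncard := by
    have h0 : p 0 = (B ∩ low pos 0).ncard := by
      have h1 := (hBc.2 0).1
      have h2 : low pos 0 = ∅ := by ext x; simp [low]
      have h3 : (B ∩ low pos 0).ncard = 0 := by rw [h2]; simp
      omega
    exact Nat.findGreatest_spec (P := fun k => p k = (B ∩ low pos k).ncard) (Nat.zero_le _) h0
  have hs2 : s ≤ pos x₀ := Nat.findGreatest_le _
  have hs3 : ∀ k, s < k → k ≤ pos x₀ → p k < (B ∩ low pos k).ncard := by
    intro k hk1 hk2
    have h1 : ¬ p k = (B ∩ low pos k).ncard :=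
      Nat.findGreatest_is_greatest (P := fun k => p k = (B ∩ low pos k).ncard) hk1 hk2
    have h2 := (hBc.2 k).1
    omega
  -- the upper end of the window
  have hex : ∃ k, pos x₁ < k ∧ q k = (B ∩ low pos k).ncard := by
    refine ⟨n, h.lt x₁ (hFE hx₁), ?_⟩
    have : B ∩ low pos n = B := by
      apply inter_eq_left.2
      intro x hx
      exact h.lt x (hB.subset_ground hx)
    rw [this, h.qn, hBc.1]
  obtain ⟨t, ⟨ht2, ht1⟩, htmin⟩ : ∃ t, (pos x₁ < t ∧ q t = (B ∩ low pos t).ncard) ∧
      ∀ k, k < t → ¬ (pos x₁ < k ∧ q k = (B ∩ low pos k).ncard) :=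
    ⟨Nat.find hex, Nat.find_spec hex, fun k hk => Nat.find_min hex hk⟩
  have ht3 : ∀ k, pos x₁ < k → k < t → (B ∩ low pos k).ncard < q k := by
    intro k hk1 hk2
    have h1 := htmin k hk2
    have h2 := (hBc.2 k).2
    by_contra h3
    exact h1 ⟨hk1, by omega⟩
  have hx01 : pos x₀ ≤ pos x₁ := hmin x₁ hx₁
  have hst : s ≤ t := by omega
  have hFW : F ⊆ low pos t \ low pos s := by
    intro x hx
    have h1 := hmin x hx
    have h2 := hmax x hx
    refine ⟨?_, ?_⟩
    · simp only [low, mem_ofPred_eq]; omega
    · simp only [low, mem_ofPred_eq]; omega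
  -- no exchange upwards / downwards
  have up : ∀ b ∈ B, b ∉ F → ∀ e ∈ F, e ∉ B → pos b < pos e →
      ¬ ∀ k, pos b < k → k ≤ pos e → p k < (B ∩ low pos k).ncard := by
    intro b hb hbF e he heB hbe hk
    exact no_exchange hB hBF hb hbF heB he ((h.exch_up hB hb heB (hFE he) hbe).2 hk)
  have down : ∀ b ∈ B, b ∉ F → ∀ e ∈ F, e ∉ B → pos e < pos b →
      ¬ ∀ k, pos e < k → k ≤ pos b → (B ∩ low pos k).ncard < q k := by
    intro b hb hbF e he heB hbe hk
    exact no_exchange hB hBF hb hbF heB he ((h.exch_down hB hb heB (hFE he) hbe).2 hk)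
  have hnot1 : ∀ x ∈ F, (∀ y ∈ F, pos y = pos x) → x ∉ B := by
    intro x hx hall hxB
    apply hdep
    have : F ⊆ B := by
      intro y hy
      have : y = x := h.inj (hFE hy) (hFE hx) (hall y hy)
      rw [this]; exact hxB
    exact hB.indep.subset this
  have hBW : B ∩ (low pos t \ low pos s) ⊆ F := by
    rintro b ⟨hb, hbt, hbs⟩
    by_contra hbF
    have hbt' : pos b < t := hbt
    have hbs' : s ≤ pos b := by
      simp only [low, mem_ofPred_eq] at hbs; omega
    have hne0 : pos b ≠ pos x₀ := fun h' =>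
      hbF (by rw [h.inj (hB.subset_ground hb) (hFE hx₀) h']; exact hx₀)
    have hne1 : pos b ≠ pos x₁ := fun h' =>
      hbF (by rw [h.inj (hB.subset_ground hb) (hFE hx₁) h']; exact hx₁)
    rcases lt_or_ge (pos b) (pos x₀) with hc | hc
    · by_cases hx0B : x₀ ∈ B
      · have hne : (F \ low pos (pos x₀ + 1)).Nonempty := by
          by_contra hcon
          rw [Set.not_nonempty_iff_eq_empty] at hcon
          refine hnot1 x₀ hx₀ (fun y hy => ?_) hx0B
          by_contra hy'
          have h1 := hmin y hy
          have : y ∈ F \ low pos (pos x₀ + 1) := by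
            refine ⟨hy, ?_⟩
            simp only [low, mem_ofPred_eq]; omega
          rw [hcon] at this
          exact this
        obtain ⟨e, heF, heB, f, hfB, hfF, hor, hbase⟩ := cut_exchange hFE hF hB hBF
          (low pos (pos x₀ + 1)) ⟨x₀, hx₀, Nat.lt_succ_self _⟩ hne
        have only : ∀ y ∈ F, y ∈ low pos (pos x₀ + 1) → y = x₀ := by
          intro y hy hy'
          have h1 := hmin y hy
          have h2 : pos y < pos x₀ + 1 := hy'
          exact h.inj (hFE hy) (hFE hx₀) (by omega)
        rcases hor with ⟨h1, -⟩ | ⟨h1, h2⟩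
        · rw [only e heF h1] at heB
          exact heB hx0B
        · have h3 := only f hfF h2
          subst h3
          have h4 : pos f < pos e := by
            simp only [low, mem_ofPred_eq] at h1; omega
          have h5 := (h.exch_up hB hfB heB (hFE heF) h4).1 hbase
          refine up b hb hbF e heF heB (by omega) (fun k hk1 hk2 => ?_)
          rcases le_or_gt k (pos f) with h6 | h6
          · exact hs3 k (by omega) h6
          · exact h5 k h6 hk2
      · exact up b hb hbF x₀ hx₀ hx0B hc (fun k hk1 hk2 => hs3 k (by omega) hk2)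
    · rcases lt_or_ge (pos x₁) (pos b) with hc' | hc'
      · by_cases hx1B : x₁ ∈ B
        · have hne : (F ∩ low pos (pos x₁)).Nonempty := by
            by_contra hcon
            rw [Set.not_nonempty_iff_eq_empty] at hcon
            refine hnot1 x₁ hx₁ (fun y hy => ?_) hx1B
            by_contra hy'
            have h1 := hmax y hy
            have : y ∈ F ∩ low pos (pos x₁) := by
              refine ⟨hy, ?_⟩
              simp only [low, mem_ofPred_eq]; omega
            rw [hcon] at this
            exact this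
          obtain ⟨e, heF, heB, f, hfB, hfF, hor, hbase⟩ := cut_exchange hFE hF hB hBF
            (low pos (pos x₁)) hne ⟨x₁, hx₁, by simp [low]⟩
          have only : ∀ y ∈ F, y ∉ low pos (pos x₁) → y = x₁ := by
            intro y hy hy'
            have h1 := hmax y hy
            have h2 : ¬ pos y < pos x₁ := hy'
            exact h.inj (hFE hy) (hFE hx₁) (by omega)
          rcases hor with ⟨h1, h2⟩ | ⟨h1, -⟩
          · have h3 := only f hfF h2
            subst h3
            have h4 : pos e < pos f := h1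
            have h5 := (h.exch_down hB hfB heB (hFE heF) h4).1 hbase
            refine down b hb hbF e heF heB (by omega) (fun k hk1 hk2 => ?_)
            rcases le_or_gt k (pos f) with h6 | h6
            · exact h5 k hk1 h6
            · exact ht3 k h6 (by omega)
          · rw [only e heF h1] at heB
            exact heB hx1B
        · exact down b hb hbF x₁ hx₁ hx1B hc' (fun k hk1 hk2 => ht3 k hk1 (by omega))
      · obtain ⟨e, heF, heB, f, hfB, hfF, hor, hbase⟩ := cut_exchange hFE hF hB hBF
            (low pos (pos b)) ⟨x₀, hx₀, (by simp only [low, mem_ofPred_eq]; omega)⟩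
            ⟨x₁, hx₁, (by simp only [low, mem_ofPred_eq]; omega)⟩
        rcases hor with ⟨h1, h2⟩ | ⟨h1, h2⟩
        · have h3 : pos e < pos b := h1
          have h4 : pos b ≤ pos f := by
            simp only [low, mem_ofPred_eq] at h2; omega
          have h5 := (h.exch_down hB hfB heB (hFE heF) (by omega)).1 hbase
          exact down b hb hbF e heF heB h3 (fun k hk1 hk2 => h5 k hk1 (by omega))
        · have h3 : pos f < pos b := h2
          have h4 : pos b ≤ pos e := by
            simp only [low, mem_ofPred_eq] at h1; omega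
          have h4' : pos b ≠ pos e := fun h' =>
            hbF (by rw [h.inj (hB.subset_ground hb) (hFE heF) h']; exact heF)
          have h5 := (h.exch_up hB hfB heB (hFE heF) (by omega)).1 hbase
          exact up b hb hbF e heF heB (by omega) (fun k hk1 hk2 => h5 k (by omega) hk2)
  refine ⟨s, t, hst, hFW, ?_⟩
  have h1 := ncard_low_split hfinB pos hst
  have h2 : B ∩ (low pos t \ low pos s) = B ∩ F := by
    apply Set.Subset.antisymm
    · exact subset_inter inter_subset_left hBW
    · exact inter_subset_inter_right B hFW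
  rw [h2, hBF, ← hs1, ← ht1] at h1
  omega

lemma LPOrder.rk_ground (h : LPOrder M pos n r p q) : rk M M.E = r := by
  obtain ⟨B, hB⟩ := M.exists_isBase
  rw [← ((h.base B hB.subset_ground).1 hB).1]
  exact ((isBase_iff_rk hB.subset_ground).1 hB).2.symm

lemma LPOrder.rk_low (h : LPOrder M pos n r p q) (t : ℕ) : rk M (M.E ∩ low pos t) ≤ q t := by
  obtain ⟨I, hI⟩ := M.exists_isBasis (M.E ∩ low pos t)
  obtain ⟨B, hB, hIB⟩ := hI.indep.exists_isBase_superset
  rw [← hI.rk_eq']
  refine le_trans (ncard_le_ncard (t := B ∩ low pos t) ?_ (hB.finite.subset inter_subset_left)) ?_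
  · exact subset_inter hIB (hI.subset.trans inter_subset_right)
  · exact (((h.base B hB.subset_ground).1 hB).2 t).2

lemma LPOrder.rk_up (h : LPOrder M pos n r p q) (s : ℕ) :
    rk M (M.E \ low pos s) + p s ≤ r := by
  obtain ⟨I, hI⟩ := M.exists_isBasis (M.E \ low pos s) sdiff_subset
  obtain ⟨B, hB, hIB⟩ := hI.indep.exists_isBase_superset
  have hBc := (h.base B hB.subset_ground).1 hB
  rw [← hI.rk_eq']
  have h1 : I.ncard ≤ (B \ low pos s).ncard := by
    refine ncard_le_ncard ?_ (hB.finite.subset sdiff_subset)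
    intro x hx
    exact ⟨hIB hx, (hI.subset hx).2⟩
  have h2 := Set.ncard_inter_add_ncard_sdiff_eq_ncard B (low pos s) hB.finite
  have h3 := (hBc.2 s).1
  omega

lemma LPOrder.rk_window (h : LPOrder M pos n r p q) {s t : ℕ} (hst : s ≤ t) :
    rk M (M.E ∩ (low pos t \ low pos s)) + p s ≤ q t := by
  obtain ⟨I, hI⟩ := M.exists_isBasis (M.E ∩ (low pos t \ low pos s)) inter_subset_left
  obtain ⟨B, hB, hIB⟩ := hI.indep.exists_isBase_superset
  have hBc := (h.base B hB.subset_ground).1 hB
  rw [← hI.rk_eq']
  have h1 : I.ncard ≤ (B ∩ (low pos t \ low pos s)).ncard := by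
    refine ncard_le_ncard ?_ (hB.finite.subset inter_subset_left)
    exact subset_inter hIB (hI.subset.trans inter_subset_right)
  have h2 := ncard_low_split hB.finite pos hst
  have h3 := (hBc.2 s).1
  have h4 := (hBc.2 t).2
  omega

theorem LPOrder.flacet (h : LPOrder M pos n r p q) {N F : Set α} (hN : Comp M N)
    (hF : Flacet M N F) : (∃ k, F = N ∩ low pos k) ∨ ∃ k, F = N \ low pos k := by
  have hNE := hN.sub
  have hFE := hF.sub.trans hNE
  obtain ⟨s, t, hst, hFW, hrk⟩ := h.exists_window hFE hF.conn hF.dep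
  have hwin := h.rk_window hst
  -- `F` is the whole window inside `N`
  have hNW : ∀ x ∈ N, x ∈ low pos t → x ∉ low pos s → x ∈ F := by
    intro x hxN hxt hxs
    by_contra hxF
    have h1 : rk M (insert x F) ≤ rk M F := by
      have : rk M (insert x F) ≤ rk M (M.E ∩ (low pos t \ low pos s)) := by
        apply rk_mono
        apply insert_subset
        · exact ⟨hNE hxN, hxt, hxs⟩
        · exact subset_inter hFE hFW
      omega
    have h2 : Split M F N (insert x F) (N \ {x}) := by
      refine split_of_le (subset_insert _ _) ?_ (insert_subset hxN hF.sub) sdiff_subset ?_ ?_ ?_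
      · intro y hy
        exact ⟨hF.sub hy, fun h' => hxF (by rw [← h']; exact hy)⟩
      · rintro y ⟨rfl | hy, hy'⟩
        · exact absurd rfl hy'.2
        · exact hy
      · intro y hy
        by_cases hyx : y = x
        · exact Or.inl (Or.inl hyx)
        · exact Or.inr ⟨hy, hyx⟩
      · have := rk_mono M (sdiff_subset : N \ {x} ⊆ N)
        omega
    rcases hF.minor _ _ h2 with h3 | h3
    · exact hxF (h3 (mem_insert _ _))
    · have h4 : N ⊆ insert x F := by
        intro y hy
        by_cases hyx : y = x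
        · exact Or.inl hyx
        · exact Or.inr (h3 ⟨hy, hyx⟩)
      have h5 := rk_mono M h4
      have h6 := hF.lt
      omega
  obtain ⟨Z, hZ⟩ := hN.sep
  have hsplit : Split M F N (N ∩ low pos t) (N \ low pos s) := by
    refine split_of_le ?_ ?_ inter_subset_left sdiff_subset ?_ ?_ ?_
    · exact subset_inter hF.sub (hFW.trans sdiff_subset)
    · intro x hx
      exact ⟨hF.sub hx, (hFW hx).2⟩
    · rintro x ⟨hx1, hx2⟩
      exact hNW x hx1.1 hx1.2 hx2.2
    · intro x hx
      by_cases hxt : x ∈ low pos t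
      · exact Or.inl ⟨hx, hxt⟩
      · refine Or.inr ⟨hx, fun h' => hxt ?_⟩
        exact lt_of_lt_of_le h' hst
    · have a1 := (split_restrict hZ (inter_subset_left : M.E ∩ low pos t ⊆ M.E)).mod
      have a2 := (split_restrict hZ (sdiff_subset : M.E \ low pos s ⊆ M.E)).mod
      have a3 := h.rk_low t
      have a4 := h.rk_up s
      have a5 := h.rk_ground
      have a6 := hZ.mod
      have a7 := rk_submod M (Z ∩ (M.E ∩ low pos t)) (Z ∩ (M.E \ low pos s))
      have a8 : rk M Z ≤ rk M (Z ∩ (M.E ∩ low pos t) ∪ Z ∩ (M.E \ low pos s)) := by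
        apply rk_mono
        intro x hx
        have hxE := hZ.YN hx
        by_cases hxt : x ∈ low pos t
        · exact Or.inl ⟨hx, hxE, hxt⟩
        · refine Or.inr ⟨hx, hxE, fun h' => hxt ?_⟩
          exact lt_of_lt_of_le h' hst
      have a9 : N ∩ (M.E ∩ low pos t) = N ∩ low pos t := by
        rw [← inter_assoc, inter_eq_left.2 hNE]
      have a10 : N ∩ (M.E \ low pos s) = N \ low pos s := by
        ext x
        simp only [mem_inter_iff, mem_sdiff]
        exact ⟨fun h' => ⟨h'.1, h'.2.2⟩, fun h' => ⟨h'.1, hNE h'.1, h'.2⟩⟩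
      rw [a9] at a1
      rw [a10] at a2
      rw [rk_empty] at *
      omega
  rcases hF.minor _ _ hsplit with h1 | h1
  · left
    exact ⟨t, (hsplit.FX).antisymm h1⟩
  · right
    exact ⟨s, (hsplit.FY).antisymm h1⟩

lemma low_mono (pos : α → ℕ) {j k : ℕ} (h : j ≤ k) : low pos j ⊆ low pos k :=
  fun _ hx => lt_of_lt_of_le hx h

/-- a lattice path matroid satisfies the condition -/
theorem LPOrder.good (h : LPOrder M pos n r p q) : Good M := by
  intro N hNE hN
  obtain ⟨x₀, hx₀, hmin⟩ := Set.exists_min_image N pos (M.ground_finite.subset hNE)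
    hN.conn.nonempty
  have key1 : ∀ F, Flacet M N F → {x₀} ⊆ F → ∃ k, F = N ∩ low pos k := by
    intro F hF hx
    rcases h.flacet hN hF with h1 | ⟨k, hk⟩
    · exact h1
    · refine ⟨n, ?_⟩
      have h2 : N ∩ low pos n = N := by
        apply inter_eq_left.2
        intro x hx
        exact h.lt x (hNE hx)
      rw [h2]
      apply hF.sub.antisymm
      intro x hxN
      rw [hk] at hx ⊢
      have h3 : ¬ pos x₀ < k := (hx rfl).2
      have h4 := hmin x hxN
      refine ⟨hxN, ?_⟩
      simp only [low, mem_ofPred_eq]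
      omega
  have key2 : ∀ F, Flacet M N F → ¬ {x₀} ⊆ F → ∃ k, F = N \ low pos k := by
    intro F hF hx
    rcases h.flacet hN hF with ⟨k, hk⟩ | h1
    · exfalso
      apply hx
      obtain ⟨y, hy⟩ := hF.conn.nonempty
      rw [hk] at hy ⊢
      have h4 := hmin y hy.1
      have h5 : pos y < k := hy.2
      rw [singleton_subset_iff]
      refine ⟨hx₀, ?_⟩
      simp only [low, mem_ofPred_eq]
      omega
    · exact h1
  refine ⟨{x₀}, singleton_subset_iff.2 (hNE hx₀), ?_⟩
  intro F _ G _ hF hG
  refine ⟨fun h1 h2 => ?_, fun h1 h2 => ?_, fun h1 h2 => ?_⟩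
  · obtain ⟨j, rfl⟩ := key1 F hF h1
    obtain ⟨k, rfl⟩ := key1 G hG h2
    rcases le_total j k with hjk | hjk
    · exact Or.inl (inter_subset_inter_right N (low_mono pos hjk))
    · exact Or.inr (inter_subset_inter_right N (low_mono pos hjk))
  · obtain ⟨j, rfl⟩ := key2 F hF h1
    obtain ⟨k, rfl⟩ := key2 G hG h2
    rcases le_total j k with hjk | hjk
    · exact Or.inr (sdiff_subset_sdiff_right (low_mono pos hjk))
    · exact Or.inl (sdiff_subset_sdiff_right (low_mono pos hjk))
  · obtain ⟨j, rfl⟩ := key1 F hF h1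
    obtain ⟨k, rfl⟩ := key2 G hG h2
    rcases le_total j k with hjk | hjk
    · left
      rintro x ⟨hx1, hx2⟩
      exact absurd (low_mono pos hjk hx1.2) hx2.2
    · right
      intro x hx
      by_cases hxj : x ∈ low pos j
      · exact Or.inl ⟨hx, hxj⟩
      · exact Or.inr ⟨hx, fun h' => hxj (low_mono pos hjk h')⟩

end

end Run7.h185.LPM
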