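import Mathlib
import Pool.Agent.Run7.h185.LPM.Forward

/-!
Lattice paths versus linear orders.
-/

universe u

namespace Run7.h185.LPM

open Set Matroid

variable {α : Type u} {M : Matroid α}

open Classical in
/-- the position of an element under a bijection of the ground set with `Fin N` -/
noncomputable def posOf {E : Set α} {N : ℕ} (e : E ≃ Fin N) (x : α) : ℕ :=
  if h : x ∈ E then (e ⟨x, h⟩ : ℕ) else 0

lemma posOf_coe {E : Set α} {N : ℕ} (e : E ≃ Fin N) (x : E) : posOf e (x : α) = (e x : ℕ) := by
  unfold posOf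
  simp

lemma posOf_injOn {E : Set α} {N : ℕ} (e : E ≃ Fin N) : Set.InjOn (posOf e) E := by
  intro x hx y hy hxy
  have h1 := posOf_coe e ⟨x, hx⟩
  have h2 := posOf_coe e ⟨y, hy⟩
  simp only at h1 h2
  rw [h1, h2] at hxy
  have := e.injective (Fin.ext hxy)
  simpa using this

lemma count_low {E : Set α} {N : ℕ} (e : E ≃ Fin N) (B : Set E) (k : ℕ) :
    ((Subtype.val '' B) ∩ low (posOf e) k).ncard = {i : Fin N | (i : ℕ) < k ∧ i ∈ e '' B}.ncard := by
  have h1 : (Subtype.val '' B) ∩ low (posOf e) k = Subtype.val '' {x : E | x ∈ B ∧ (e x : ℕ) < k} := by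
    ext x
    simp only [low, mem_inter_iff, mem_image, mem_ofPred_eq]
    constructor
    · rintro ⟨⟨y, hy, rfl⟩, h⟩
      rw [posOf_coe] at h
      exact ⟨y, ⟨hy, h⟩, rfl⟩
    · rintro ⟨y, ⟨hy, h⟩, rfl⟩
      refine ⟨⟨y, hy, rfl⟩, ?_⟩
      rw [posOf_coe]
      exact h
  have h2 : {i : Fin N | (i : ℕ) < k ∧ i ∈ e '' B} = e '' {x : E | x ∈ B ∧ (e x : ℕ) < k} := by
    ext i
    simp only [mem_image, mem_ofPred_eq]
    constructor
    · rintro ⟨h, y, hy, rfl⟩
      exact ⟨y, ⟨hy, h⟩, rfl⟩
    · rintro ⟨y, ⟨hy, h⟩, rfl⟩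
      exact ⟨h, y, hy, rfl⟩
  rw [h1, h2, Set.ncard_image_of_injective _ Subtype.val_injective,
    Set.ncard_image_of_injective _ e.injective]

lemma count_all {E : Set α} {N : ℕ} (e : E ≃ Fin N) (B : Set E) :
    (Subtype.val '' B : Set α).ncard = (e '' B).ncard := by
  rw [Set.ncard_image_of_injective _ Subtype.val_injective,
    Set.ncard_image_of_injective _ e.injective]

lemma exists_path_iff {E : Set α} {m r : ℕ} (P Q : LatticePath m r) (e : E ≃ Fin (m + r))
    (B : Set E) :
    (∃ R : LatticePath m r, P.Below R ∧ R.Below Q ∧ e '' B = R.northSet) ↔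
      ((Subtype.val '' B : Set α).ncard = r ∧ ∀ k,
        P.height k ≤ ((Subtype.val '' B) ∩ low (posOf e) k).ncard ∧
        ((Subtype.val '' B) ∩ low (posOf e) k).ncard ≤ Q.height k) := by
  classical
  constructor
  · rintro ⟨R, h1, h2, h3⟩
    refine ⟨?_, fun k => ?_⟩
    · rw [count_all e B, h3]
      exact R.ncard_north
    · have h4 : ((Subtype.val '' B) ∩ low (posOf e) k).ncard = R.height k := by
        rw [count_low, h3]
        rfl
      rw [h4]
      exact ⟨h1 k, h2 k⟩
  · rintro ⟨h1, h2⟩
    have hN : {i | (if i ∈ e '' B then Step.north else Step.east) = Step.north} = e '' B := by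
      ext i
      simp only [mem_ofPred_eq]
      by_cases h : i ∈ e '' B
      · simp
      · simp
    let R : LatticePath m r := ⟨fun i => if i ∈ e '' B then Step.north else Step.east, by
      rw [hN, ← count_all e B, h1]⟩
    have hR : R.northSet = e '' B := hN
    have hk : ∀ k, R.height k = ((Subtype.val '' B) ∩ low (posOf e) k).ncard := by
      intro k
      rw [count_low, ← hR]
      rfl
    refine ⟨R, fun k => ?_, fun k => ?_, hR.symm⟩
    · rw [hk]; exact (h2 k).1
    · rw [hk]; exact (h2 k).2

lemma exists_lpOrder (h : IsLatticePathMatroid M) :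
    ∃ pos n r p q, LPOrder M pos n r p q := by
  classical
  obtain ⟨m, r, P, Q, -, e, he⟩ := h
  refine ⟨posOf e, m + r, r, P.height, Q.height, posOf_injOn e, ?_, ?_, ?_⟩
  · intro x hx
    have := posOf_coe e ⟨x, hx⟩
    simp only at this
    rw [this]
    exact (e ⟨x, hx⟩).2
  · have : {i : Fin (m + r) | (i : ℕ) < m + r ∧ Q.step i = Step.north} =
        {i | Q.step i = Step.north} := by
      ext i
      simp
    unfold LatticePath.height
    rw [this]
    exact Q.ncard_north
  · intro B hB
    have h1 : (Subtype.val '' (Subtype.val ⁻¹' B : Set M.E) : Set α) = B := by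
      rw [Subtype.image_preimage_coe, inter_eq_right.2 hB]
    have h2 := he (Subtype.val ⁻¹' B)
    rw [exists_path_iff, h1] at h2
    exact h2

lemma exists_path {m r : ℕ} (F : ℕ → ℕ) (h0 : F 0 = 0)
    (hs : ∀ k, F k ≤ F (k + 1) ∧ F (k + 1) ≤ F k + 1) (hn : ∀ k, m + r ≤ k → F k = r) :
    ∃ P : LatticePath m r, ∀ k, P.height k = F k := by
  classical
  have key : ∀ k, k ≤ m + r → {i : Fin (m + r) | (i : ℕ) < k ∧ F (i + 1) = F i + 1}.ncard = F k := by
    intro k
    induction k with
    | zero =>
      intro _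
      simp [h0]
    | succ k ih =>
      intro hk
      have h1 := ih (by omega)
      by_cases h2 : F (k + 1) = F k + 1
      · have h3 : {i : Fin (m + r) | (i : ℕ) < k + 1 ∧ F (i + 1) = F i + 1} =
            insert ⟨k, by omega⟩ {i : Fin (m + r) | (i : ℕ) < k ∧ F (i + 1) = F i + 1} := by
          ext i
          simp only [mem_ofPred_eq, mem_insert_iff, Fin.ext_iff]
          constructor
          · rintro ⟨h3, h4⟩
            by_cases h5 : (i : ℕ) = k
            · exact Or.inl h5
            · exact Or.inr ⟨by omega, h4⟩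
          · rintro (h3 | ⟨h3, h4⟩)
            · refine ⟨by omega, ?_⟩
              rw [h3]; exact h2
            · exact ⟨by omega, h4⟩
        rw [h3, Set.ncard_insert_of_notMem (by simp) (Set.toFinite _), h1, h2]
      · have h3 : {i : Fin (m + r) | (i : ℕ) < k + 1 ∧ F (i + 1) = F i + 1} =
            {i : Fin (m + r) | (i : ℕ) < k ∧ F (i + 1) = F i + 1} := by
          ext i
          simp only [mem_ofPred_eq]
          constructor
          · rintro ⟨h3, h4⟩
            refine ⟨?_, h4⟩
            by_contra h5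
            have : (i : ℕ) = k := by omega
            rw [this] at h4
            exact h2 h4
          · rintro ⟨h3, h4⟩
            exact ⟨by omega, h4⟩
        rw [h3, h1]
        have := hs k
        omega
  have hN : ∀ i : Fin (m + r), (if F (i + 1) = F i + 1 then Step.north else Step.east) = Step.north ↔
      F (i + 1) = F i + 1 := by
    intro i
    by_cases h : F (i + 1) = F i + 1
    · simp [h]
    · simp [h]
  refine ⟨⟨fun i => if F (i + 1) = F i + 1 then Step.north else Step.east, ?_⟩, ?_⟩
  · have h1 := key (m + r) le_rfl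
    rw [hn _ le_rfl] at h1
    have h2 : {i : Fin (m + r) | (if F (i + 1) = F i + 1 then Step.north else Step.east) = Step.north} =
      {i : Fin (m + r) | (i : ℕ) < m + r ∧ F (i + 1) = F i + 1} := by
      ext i
      simp only [mem_ofPred_eq]
      rw [hN i]
      simp
    rw [h2, h1]
  · intro k
    unfold LatticePath.height
    rcases le_total k (m + r) with hk | hk
    · rw [← key k hk]
      congr 1
      ext i
      simp only [mem_ofPred_eq]
      rw [hN i]
    · have h1 := key (m + r) le_rfl
      rw [hn _ le_rfl] at h1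
      rw [hn k hk]
      refine Eq.trans ?_ h1
      congr 1
      ext i
      simp only [mem_ofPred_eq]
      rw [hN i]
      have := i.2
      constructor
      · rintro ⟨-, h⟩
        exact ⟨by omega, h⟩
      · rintro ⟨-, h⟩
        exact ⟨by omega, h⟩

lemma goodOrder_transport [M.Finite] {pos pos' : α → ℕ} (h : GoodOrder M M.E pos)
    (hlt : ∀ x ∈ M.E, ∀ y ∈ M.E, pos x < pos y ↔ pos' x < pos' y) (hinj : Set.InjOn pos' M.E)
    (n : ℕ) (hn : ∀ x ∈ M.E, pos' x < n) : GoodOrder M M.E pos' := by
  refine ⟨hinj, ?_⟩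
  intro B hB hBc hk
  refine h.2 B hB hBc (fun j => ?_)
  have hex : ∃ k, M.E ∩ low pos j = M.E ∩ low pos' k ∧ M.E \ low pos j = M.E \ low pos' k := by
    by_cases hne : (M.E \ low pos j).Nonempty
    · obtain ⟨y, hy, hmin⟩ := Set.exists_min_image (M.E \ low pos j) pos
        (M.ground_finite.subset sdiff_subset) hne
      have key : ∀ x ∈ M.E, x ∈ low pos j ↔ x ∈ low pos' (pos' y) := by
        intro x hx
        have hy2 : ¬ pos y < j := hy.2
        constructor
        · intro h1
          have h1' : pos x < j := h1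
          exact (hlt x hx y hy.1).1 (by omega)
        · intro h1
          have h1' := (hlt x hx y hy.1).2 h1
          by_contra h2
          have h3 := hmin x ⟨hx, h2⟩
          omega
      refine ⟨pos' y, ?_, ?_⟩
      · ext x
        simp only [mem_inter_iff]
        exact ⟨fun h1 => ⟨h1.1, (key x h1.1).1 h1.2⟩, fun h1 => ⟨h1.1, (key x h1.1).2 h1.2⟩⟩
      · ext x
        simp only [mem_sdiff]
        exact ⟨fun h1 => ⟨h1.1, fun h2 => h1.2 ((key x h1.1).2 h2)⟩,
          fun h1 => ⟨h1.1, fun h2 => h1.2 ((key x h1.1).1 h2)⟩⟩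
    · rw [Set.not_nonempty_iff_eq_empty] at hne
      have h1 : M.E ⊆ low pos j := sdiff_eq_bot_iff.1 hne
      have h2 : M.E ⊆ low pos' n := fun x hx => hn x hx
      refine ⟨n, ?_, ?_⟩
      · rw [inter_eq_left.2 h1, inter_eq_left.2 h2]
      · rw [hne]
        exact (sdiff_eq_bot_iff.2 h2).symm
  obtain ⟨k, h1, h2⟩ := hex
  rw [h1, h2]
  exact hk k

theorem lpm_of_goodOrder [M.Finite] {pos : α → ℕ} (h : GoodOrder M M.E pos) :
    IsLatticePathMatroid M := by
  classical
  have hfin := M.ground_finite
  set r := rk M M.E with hr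
  have hrn : r ≤ M.E.ncard := rk_le_ncard hfin
  set m := M.E.ncard - r with hm
  have hmr : M.E.ncard = m + r := by omega
  -- an increasing bijection of the ground set with an initial segment
  have : Fintype M.E := hfin.fintype
  let _ : LinearOrder M.E := LinearOrder.lift' (fun x : M.E => pos x) (fun x y hxy =>
    Subtype.ext (h.1 x.2 y.2 hxy))
  have hcard : Fintype.card M.E = m + r := by
    rw [← hmr, Set.ncard_eq_toFinset_card', Set.toFinset_card]
  let oi : Fin (m + r) ≃o M.E := Fintype.orderIsoFinOfCardEq M.E hcard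
  let e : M.E ≃ Fin (m + r) := oi.symm.toEquiv
  have he : ∀ x y : M.E, pos x < pos y ↔ (e x : ℕ) < (e y : ℕ) := by
    intro x y
    have h1 : x < y ↔ oi.symm x < oi.symm y := oi.symm.lt_iff_lt.symm
    exact h1
  have hg : GoodOrder M M.E (posOf e) := by
    refine goodOrder_transport h ?_ (posOf_injOn e) (m + r) ?_
    · intro x hx y hy
      have h1 := posOf_coe e ⟨x, hx⟩
      have h2 := posOf_coe e ⟨y, hy⟩
      simp only at h1 h2
      rw [h1, h2]
      exact he ⟨x, hx⟩ ⟨y, hy⟩
    · intro x hx
      have h1 := posOf_coe e ⟨x, hx⟩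
      simp only at h1
      rw [h1]
      exact (e ⟨x, hx⟩).2
  have hlow : ∀ k, m + r ≤ k → M.E ⊆ low (posOf e) k := by
    intro k hk x hx
    have h1 := posOf_coe e ⟨x, hx⟩
    simp only at h1
    have h2 : posOf e x < k := by
      rw [h1]
      exact lt_of_lt_of_le (e ⟨x, hx⟩).2 hk
    exact h2
  -- the level sets
  have hlev : ∀ k, rk M (M.E ∩ {x | posOf e x = k}) ≤ 1 := by
    intro k
    refine (rk_le_ncard (hfin.subset inter_subset_left)).trans ?_
    rw [Set.ncard_le_one (hfin.subset inter_subset_left)]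
    rintro a ⟨ha, ha'⟩ b ⟨hb, hb'⟩
    exact posOf_injOn e ha hb (Eq.trans ha' (Eq.symm hb'))
  have hf : ∀ k, rk M (M.E ∩ low (posOf e) k) ≤ rk M (M.E ∩ low (posOf e) (k + 1)) ∧
      rk M (M.E ∩ low (posOf e) (k + 1)) ≤ rk M (M.E ∩ low (posOf e) k) + 1 := by
    intro k
    refine ⟨rk_mono M (inter_subset_inter_right _ (low_mono _ (Nat.le_succ k))), ?_⟩
    have h1 : M.E ∩ low (posOf e) (k + 1) ⊆
        (M.E ∩ low (posOf e) k) ∪ (M.E ∩ {x | posOf e x = k}) := by
      rintro x ⟨hx, hx'⟩
      have h2 : posOf e x < k + 1 := hx'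
      rcases lt_or_ge (posOf e x) k with h3 | h3
      · exact Or.inl ⟨hx, h3⟩
      · exact Or.inr ⟨hx, show posOf e x = k by omega⟩
    have h2 := rk_mono M h1
    have h3 := rk_union_le M (M.E ∩ low (posOf e) k) (M.E ∩ {x | posOf e x = k})
    have h4 := hlev k
    omega
  have hgd : ∀ k, rk M (M.E \ low (posOf e) (k + 1)) ≤ rk M (M.E \ low (posOf e) k) ∧
      rk M (M.E \ low (posOf e) k) ≤ rk M (M.E \ low (posOf e) (k + 1)) + 1 := by
    intro k
    refine ⟨rk_mono M (sdiff_subset_sdiff_right (low_mono _ (Nat.le_succ k))), ?_⟩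
    have h1 : M.E \ low (posOf e) k ⊆
        (M.E \ low (posOf e) (k + 1)) ∪ (M.E ∩ {x | posOf e x = k}) := by
      rintro x ⟨hx, hx'⟩
      have h2 : ¬ posOf e x < k := hx'
      by_cases h3 : posOf e x = k
      · exact Or.inr ⟨hx, h3⟩
      · refine Or.inl ⟨hx, ?_⟩
        show ¬ posOf e x < k + 1
        omega
    have h2 := rk_mono M h1
    have h3 := rk_union_le M (M.E \ low (posOf e) (k + 1)) (M.E ∩ {x | posOf e x = k})
    have h4 := hlev k
    omega
  have hgle : ∀ k, rk M (M.E \ low (posOf e) k) ≤ r := fun k => rk_mono M sdiff_subset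
  obtain ⟨Q, hQ⟩ := exists_path (m := m) (r := r) (fun k => rk M (M.E ∩ low (posOf e) k))
    (by
      have : M.E ∩ low (posOf e) 0 = ∅ := by ext x; simp [low]
      simp only [this, rk_empty])
    hf
    (fun k hk => by simp only [inter_eq_left.2 (hlow k hk), hr])
  obtain ⟨P, hP⟩ := exists_path (m := m) (r := r) (fun k => r - rk M (M.E \ low (posOf e) k))
    (by
      have : M.E \ low (posOf e) 0 = M.E := by ext x; simp [low]
      simp only [this, hr]
      omega)
    (fun k => by
      have h1 := hgd k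
      have h2 := hgle k
      have h3 := hgle (k + 1)
      constructor
      · omega
      · omega)
    (fun k hk => by
      have : M.E \ low (posOf e) k = ∅ := sdiff_eq_bot_iff.2 (hlow k hk)
      simp only [this, rk_empty]
      omega)
  refine ⟨m, r, P, Q, ?_, e, ?_⟩
  · intro k
    rw [hP, hQ]
    have h1 := rk_union_le M (M.E ∩ low (posOf e) k) (M.E \ low (posOf e) k)
    rw [Set.inter_union_sdiff] at h1
    omega
  · intro B
    rw [exists_path_iff]
    have hBE : (Subtype.val '' B : Set α) ⊆ M.E := by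
      rintro x ⟨y, -, rfl⟩
      exact y.2
    have hBfin := hfin.subset hBE
    generalize (Subtype.val '' B : Set α) = C at *
    have hsplit : ∀ k, (C ∩ low (posOf e) k).ncard + (C \ low (posOf e) k).ncard = C.ncard :=
      fun k => Set.ncard_inter_add_ncard_sdiff_eq_ncard C _ hBfin
    constructor
    · intro hb
      have h1 := (isBase_iff_rk hBE).1 hb
      refine ⟨h1.2, fun k => ?_⟩
      rw [hP, hQ]
      have h2 : (C ∩ low (posOf e) k).ncard ≤ rk M (M.E ∩ low (posOf e) k) :=
        ncard_le_rk (h1.1.subset inter_subset_left) (inter_subset_inter_left _ hBE)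
      have h3 : (C \ low (posOf e) k).ncard ≤ rk M (M.E \ low (posOf e) k) :=
        ncard_le_rk (h1.1.subset sdiff_subset) (sdiff_subset_sdiff_left hBE)
      have h4 := hsplit k
      omega
    · rintro ⟨h1, h2⟩
      rw [isBase_iff_rk hBE]
      refine ⟨hg.2 C hBE h1 (fun k => ?_), h1⟩
      have e1 : C ∩ (M.E ∩ low (posOf e) k) = C ∩ low (posOf e) k := by
        rw [← inter_assoc, inter_eq_left.2 hBE]
      have e2 : C ∩ (M.E \ low (posOf e) k) = C \ low (posOf e) k := by
        ext x
        simp only [mem_inter_iff, mem_sdiff]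
        exact ⟨fun h' => ⟨h'.1, h'.2.2⟩, fun h' => ⟨h'.1, hBE h'.1, h'.2⟩⟩
      rw [e1, e2]
      have h3 := h2 k
      rw [hP, hQ] at h3
      have h4 := hsplit k
      have h5 := hgle k
      omega

theorem isLPM_iff_good [M.Finite] : IsLatticePathMatroid M ↔ Good M := by
  constructor
  · intro h
    obtain ⟨pos, n, r, p, q, hl⟩ := exists_lpOrder h
    exact hl.good
  · intro h
    obtain ⟨pos, hpos⟩ := exists_goodOrder h _ M.E subset_rfl le_rfl
      ⟨∅, split_of_le (empty_subset _) (empty_subset _) subset_rfl (empty_subset _)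
        (by simp) (by simp) (by omega)⟩
    exact lpm_of_goodOrder hpos

end Run7.h185.LPM
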