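import Mathlib
import Pool.Agent.Run7.h185.LPM.Paths

/-!
The sentence characterising lattice path matroids.
-/

universe u

namespace Run7.h185.LPM

open Set Matroid

namespace Formula

/-- `x` is a basis of `y`; auxiliary variables from `k` on -/
def fBasis (x y k : ℕ) : Formula :=
  conj (ind x) (conj (sub x y) (all k (imp (conj (ind k) (conj (sub x k) (sub k y))) (sub k x))))

/-- `x, y` is a modular pair -/
def fMod (x y k : ℕ) : Formula :=
  ex k (ex (k + 1) (ex (k + 2) (conj (ind k) (conj (sub (k + 1) k) (conj (sub (k + 2) k)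
    (conj (fBasis (k + 1) x (k + 3)) (fBasis (k + 2) y (k + 3))))))))

/-- `x` is empty -/
def fEmpty (x k : ℕ) : Formula := all k (sub x k)

/-- `x` is the ground set -/
def fFull (x k : ℕ) : Formula := all k (sub k x)

/-- `x ∩ y ⊆ f` -/
def fInter (x y f k : ℕ) : Formula := all k (imp (conj (sub k x) (sub k y)) (sub k f))

/-- `n ⊆ x ∪ y` -/
def fUnion (x y n k : ℕ) : Formula := all k (imp (conj (sub x k) (sub y k)) (sub n k))

/-- `x, y` split `n` relative to `f` -/
def fSplit (f n x y k : ℕ) : Formula :=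
  conj (sub f x) (conj (sub f y) (conj (sub x n) (conj (sub y n)
    (conj (fInter x y f k) (conj (fUnion x y n k) (fMod x y k))))))

/-- the minor `(M|n)/f` is connected -/
def fConnMinor (f n k : ℕ) : Formula :=
  all k (all (k + 1) (imp (fSplit f n k (k + 1) (k + 2)) (disj (sub k f) (sub (k + 1) f))))

/-- `M|n` is connected and non-empty -/
def fConn (n k : ℕ) : Formula :=
  ex k (conj (fEmpty k (k + 1)) (conj (neg (sub n k)) (fConnMinor k n (k + 1))))

/-- `n` is a component -/
def fComp (n k : ℕ) : Formula :=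
  conj (fConn n k) (ex k (ex (k + 1) (ex (k + 2) (conj (fEmpty k (k + 3))
    (conj (fFull (k + 1) (k + 3)) (fSplit k (k + 1) n (k + 2) (k + 3)))))))

/-- `f` is a flacet of `n` -/
def fFlacet (n f k : ℕ) : Formula :=
  conj (sub f n) (conj (fConn f k) (conj (neg (ind f)) (conj (fConnMinor f n k)
    (ex k (conj (fBasis k f (k + 1)) (neg (fBasis k n (k + 1))))))))

/-- `f` and `g` are comparable -/
def fComparable (f g : ℕ) : Formula := disj (sub f g) (sub g f)

/-- `f` and `g` are disjoint or cover `n` -/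
def fCo (n f g k : ℕ) : Formula :=
  disj (ex k (conj (fEmpty k (k + 1)) (fInter f g k (k + 1)))) (fUnion f g n k)

/-- the conditions on two flacets `f, g` of `n` -/
def fPair (n a f g k : ℕ) : Formula :=
  conj (imp (sub a f) (imp (sub a g) (fComparable f g)))
    (conj (imp (neg (sub a f)) (imp (neg (sub a g)) (fComparable f g)))
      (imp (sub a f) (imp (neg (sub a g)) (fCo n f g k))))

/-- the chain condition for `n` with witness `a` -/
def fChain (n a k : ℕ) : Formula :=
  all k (all (k + 1) (imp (fFlacet n k (k + 2)) (imp (fFlacet n (k + 1) (k + 2))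
    (fPair n a k (k + 1) (k + 2)))))

/-- the sentence -/
def fGood : Formula := all 0 (imp (fComp 0 1) (ex 1 (fChain 0 1 2)))

end Formula

open Formula

variable {α : Type u} {M : Matroid α} {v : ℕ → Set α}

lemma sat_fBasis {x y k : ℕ} (hx : x < k) (hy : y < k) {X Y : Set α} (hX : v x = X)
    (hY : v y = Y) (hYE : Y ⊆ M.E) : Sat M (fBasis x y k) v ↔ M.IsBasis X Y := by
  subst hX hY
  simp only [fBasis, Sat, Function.update_self, Function.update_of_ne hx.ne,
    Function.update_of_ne hy.ne]
  constructor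
  · rintro ⟨h1, h2, h3⟩
    exact h1.isBasis_of_maximal_subset h2 (fun J hJ hsub hJY => h3 J hJ.subset_ground ⟨hJ, hsub, hJY⟩)
      hYE
  · intro h
    refine ⟨h.indep, h.subset, fun A _ hA => ?_⟩
    exact (h.eq_of_subset_indep hA.1 hA.2.1 hA.2.2).ge

lemma sat_fMod {x y k : ℕ} (hx : x < k) (hy : y < k) {X Y : Set α} (hX : v x = X)
    (hY : v y = Y) (hXE : X ⊆ M.E) (hYE : Y ⊆ M.E) : Sat M (fMod x y k) v ↔ ModPair M X Y := by
  have hx0 : x ≠ k := by omega
  have hx1 : x ≠ k + 1 := by omega
  have hx2 : x ≠ k + 2 := by omega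
  have hy0 : y ≠ k := by omega
  have hy1 : y ≠ k + 1 := by omega
  have hy2 : y ≠ k + 2 := by omega
  simp only [fMod, Sat, ModPair]
  refine exists_congr fun J => and_congr_right fun hJ => exists_congr fun J₁ =>
    and_congr_right fun hJ₁ => exists_congr fun J₂ => and_congr_right fun hJ₂ => ?_
  rw [sat_fBasis (X := J₁) (Y := X) (by omega) (by omega) (by simp) (by simp [hx0, hx1, hx2, hX]) hXE,
    sat_fBasis (X := J₂) (Y := Y) (by omega) (by omega) (by simp) (by simp [hy0, hy1, hy2, hY]) hYE]
  simp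

lemma sat_fEmpty {x k : ℕ} (hx : x < k) {X : Set α} (hX : v x = X) :
    Sat M (fEmpty x k) v ↔ X = ∅ := by
  subst hX
  simp only [fEmpty, Sat, Function.update_self, Function.update_of_ne hx.ne]
  constructor
  · intro h
    exact subset_empty_iff.1 (h ∅ (empty_subset _))
  · intro h A _
    rw [h]
    exact empty_subset _

lemma sat_fFull {x k : ℕ} (hx : x < k) {X : Set α} (hX : v x = X) (hXE : X ⊆ M.E) :
    Sat M (fFull x k) v ↔ X = M.E := by
  subst hX
  simp only [fFull, Sat, Function.update_self, Function.update_of_ne hx.ne]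
  constructor
  · intro h
    exact hXE.antisymm (h M.E subset_rfl)
  · intro h A hA
    rw [h]
    exact hA

lemma sat_fInter {x y f k : ℕ} (hx : x < k) (hy : y < k) (hf : f < k) {X Y F : Set α}
    (hX : v x = X) (hY : v y = Y) (hF : v f = F) (hXE : X ⊆ M.E) :
    Sat M (fInter x y f k) v ↔ X ∩ Y ⊆ F := by
  subst hX hY hF
  simp only [fInter, Sat, Function.update_self, Function.update_of_ne hx.ne,
    Function.update_of_ne hy.ne, Function.update_of_ne hf.ne]
  constructor
  · intro h
    exact h _ (inter_subset_left.trans hXE) ⟨inter_subset_left, inter_subset_right⟩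
  · rintro h A _ ⟨h1, h2⟩
    exact (subset_inter h1 h2).trans h

lemma sat_fUnion {x y n k : ℕ} (hx : x < k) (hy : y < k) (hn : n < k) {X Y N : Set α}
    (hX : v x = X) (hY : v y = Y) (hN : v n = N) (hXE : X ⊆ M.E) (hYE : Y ⊆ M.E) :
    Sat M (fUnion x y n k) v ↔ N ⊆ X ∪ Y := by
  subst hX hY hN
  simp only [fUnion, Sat, Function.update_self, Function.update_of_ne hx.ne,
    Function.update_of_ne hy.ne, Function.update_of_ne hn.ne]
  constructor
  · intro h
    exact h _ (union_subset hXE hYE) ⟨subset_union_left, subset_union_right⟩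
  · rintro h A _ ⟨h1, h2⟩
    exact h.trans (union_subset h1 h2)

lemma sat_fSplit [M.Finite] {f n x y k : ℕ} (hf : f < k) (hn : n < k) (hx : x < k) (hy : y < k)
    {F N X Y : Set α} (hF : v f = F) (hN : v n = N) (hX : v x = X) (hY : v y = Y)
    (hXE : X ⊆ M.E) (hYE : Y ⊆ M.E) : Sat M (fSplit f n x y k) v ↔ Split M F N X Y := by
  simp only [fSplit, Sat]
  rw [sat_fInter hx hy hf hX hY hF hXE, sat_fUnion hx hy hn hX hY hN hXE hYE,
    sat_fMod hx hy hX hY hXE hYE, modPair_iff hXE hYE, hF, hN, hX, hY]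
  constructor
  · rintro ⟨h1, h2, h3, h4, h5, h6, h7⟩
    refine ⟨h1, h2, h3, h4, h5, h6, ?_⟩
    rw [h7, h5.antisymm (subset_inter h1 h2), (union_subset h3 h4).antisymm h6]
  · rintro ⟨h1, h2, h3, h4, h5, h6, h7⟩
    refine ⟨h1, h2, h3, h4, h5, h6, ?_⟩
    rw [h7, h5.antisymm (subset_inter h1 h2), (union_subset h3 h4).antisymm h6]

lemma sat_fConnMinor [M.Finite] {f n k : ℕ} (hf : f < k) (hn : n < k)
    {F N : Set α} (hF : v f = F) (hN : v n = N) (hNE : N ⊆ M.E) :
    Sat M (fConnMinor f n k) v ↔ ConnMinor M F N := by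
  have hf0 : f ≠ k := by omega
  have hf1 : f ≠ k + 1 := by omega
  have hn0 : n ≠ k := by omega
  have hn1 : n ≠ k + 1 := by omega
  simp only [fConnMinor, Sat]
  constructor
  · intro h X Y hs
    have hXE := hs.XN.trans hNE
    have hYE := hs.YN.trans hNE
    have h1 := h X hXE Y hYE
    rw [sat_fSplit (F := F) (N := N) (X := X) (Y := Y) (by omega) (by omega) (by omega) (by omega)
      (by simp [hf0, hf1, hF]) (by simp [hn0, hn1, hN]) (by simp) (by simp) hXE hYE] at h1
    have h2 := h1 hs
    simpa [hf0, hf1, hF] using h2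
  · intro h X hXE Y hYE
    rw [sat_fSplit (F := F) (N := N) (X := X) (Y := Y) (by omega) (by omega) (by omega) (by omega)
      (by simp [hf0, hf1, hF]) (by simp [hn0, hn1, hN]) (by simp) (by simp) hXE hYE]
    intro hs
    have h2 := h X Y hs
    simpa [hf0, hf1, hF] using h2

lemma sat_fConn [M.Finite] {n k : ℕ} (hn : n < k) {N : Set α} (hN : v n = N) (hNE : N ⊆ M.E) :
    Sat M (fConn n k) v ↔ Conn M N := by
  have hn0 : n ≠ k := by omega
  simp only [fConn, Sat]
  constructor
  · rintro ⟨O, hO, h1, h2, h3⟩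
    rw [sat_fEmpty (X := O) (by omega) (by simp)] at h1
    rw [sat_fConnMinor (F := O) (N := N) (by omega) (by omega) (by simp) (by simp [hn0, hN]) hNE] at h3
    subst h1
    refine ⟨?_, h3⟩
    simp only [Function.update_of_ne hn0, hN, Function.update_self, subset_empty_iff] at h2
    exact Set.nonempty_iff_ne_empty.2 h2
  · rintro ⟨h1, h2⟩
    refine ⟨∅, empty_subset _, ?_, ?_, ?_⟩
    · rw [sat_fEmpty (X := ∅) (by omega) (by simp)]
    · simp only [Function.update_of_ne hn0, hN, Function.update_self, subset_empty_iff]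
      exact Set.nonempty_iff_ne_empty.1 h1
    · rw [sat_fConnMinor (F := ∅) (N := N) (by omega) (by omega) (by simp) (by simp [hn0, hN]) hNE]
      exact h2

lemma sat_fComp [M.Finite] {n k : ℕ} (hn : n < k) {N : Set α} (hN : v n = N) (hNE : N ⊆ M.E) :
    Sat M (fComp n k) v ↔ Comp M N := by
  have hn0 : n ≠ k := by omega
  have hn1 : n ≠ k + 1 := by omega
  have hn2 : n ≠ k + 2 := by omega
  simp only [fComp, Sat]
  rw [sat_fConn hn hN hNE]
  have key : ∀ O T Z : Set α, T ⊆ M.E → Z ⊆ M.E →
      (Sat M (fEmpty k (k + 3)) (Function.update (Function.update (Function.update v k O) (k + 1) T) (k + 2) Z) ∧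
        Sat M (fFull (k + 1) (k + 3)) (Function.update (Function.update (Function.update v k O) (k + 1) T) (k + 2) Z) ∧
        Sat M (fSplit k (k + 1) n (k + 2) (k + 3)) (Function.update (Function.update (Function.update v k O) (k + 1) T) (k + 2) Z) ↔
      O = ∅ ∧ T = M.E ∧ Split M O T N Z) := by
    intro O T Z hT hZ
    rw [sat_fEmpty (X := O) (by omega) (by simp), sat_fFull (X := T) (by omega) (by simp) hT,
      sat_fSplit (F := O) (N := T) (X := N) (Y := Z) (by omega) (by omega) (by omega) (by omega)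
        (by simp) (by simp) (by simp [hn0, hn1, hn2, hN]) (by simp) hNE hZ]
  constructor
  · rintro ⟨h1, O, hO, T, hT, Z, hZ, h2⟩
    rw [key O T Z hT hZ] at h2
    obtain ⟨rfl, rfl, h3⟩ := h2
    exact ⟨hNE, h1, Z, h3⟩
  · rintro ⟨-, h1, Z, hZ⟩
    exact ⟨h1, ∅, empty_subset _, M.E, subset_rfl, Z, hZ.YN, (key ∅ M.E Z subset_rfl hZ.YN).2
      ⟨rfl, rfl, hZ⟩⟩

lemma sat_fFlacet [M.Finite] {n f k : ℕ} (hn : n < k) (hf : f < k) {N F : Set α} (hN : v n = N)
    (hF : v f = F) (hNE : N ⊆ M.E) (hFE : F ⊆ M.E) :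
    Sat M (fFlacet n f k) v ↔ Flacet M N F := by
  have hn0 : n ≠ k := by omega
  have hf0 : f ≠ k := by omega
  simp only [fFlacet, Sat]
  rw [sat_fConn hf hF hFE, sat_fConnMinor hf hn hF hN hNE, hF, hN]
  have key : ∀ J : Set α, (Sat M (fBasis k f (k + 1)) (Function.update v k J) ∧
      ¬ Sat M (fBasis k n (k + 1)) (Function.update v k J)) ↔ M.IsBasis J F ∧ ¬ M.IsBasis J N := by
    intro J
    rw [sat_fBasis (X := J) (Y := F) (by omega) (by omega) (by simp) (by simp [hf0, hF]) hFE,
      sat_fBasis (X := J) (Y := N) (by omega) (by omega) (by simp) (by simp [hn0, hN]) hNE]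
  simp only [key]
  constructor
  · rintro ⟨h1, h2, h3, h4, J, hJ, h5, h6⟩
    refine ⟨h1, h2, h3, h4, ?_⟩
    by_contra h7
    push Not at h7
    apply h6
    apply isBasis_of_rk h5.indep (h5.subset.trans h1) hNE
    rw [h5.rk_eq']
    exact h7
  · rintro ⟨h1, h2, h3, h4, h5⟩
    obtain ⟨J, hJ⟩ := M.exists_isBasis F hFE
    refine ⟨h1, h2, h3, h4, J, hJ.indep.subset_ground, hJ, fun h6 => ?_⟩
    have h7 := hJ.rk_eq'
    have h8 := h6.rk_eq'
    omega

lemma sat_fCo [M.Finite] {n f g k : ℕ} (hn : n < k) (hf : f < k) (hg : g < k) {N F G : Set α}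
    (hN : v n = N) (hF : v f = F) (hG : v g = G) (hFE : F ⊆ M.E) (hGE : G ⊆ M.E) :
    Sat M (fCo n f g k) v ↔ (F ∩ G ⊆ ∅ ∨ N ⊆ F ∪ G) := by
  have hf0 : f ≠ k := by omega
  have hg0 : g ≠ k := by omega
  simp only [fCo, Sat]
  rw [sat_fUnion hf hg hn hF hG hN hFE hGE]
  have key : ∀ O : Set α, (Sat M (fEmpty k (k + 1)) (Function.update v k O) ∧
      Sat M (fInter f g k (k + 1)) (Function.update v k O)) ↔ O = ∅ ∧ F ∩ G ⊆ O := by
    intro O
    rw [sat_fEmpty (X := O) (by omega) (by simp), sat_fInter (X := F) (Y := G) (F := O) (by omega)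
      (by omega) (by omega) (by simp [hf0, hF]) (by simp [hg0, hG]) (by simp) hFE]
  simp only [key]
  constructor
  · rintro (⟨O, -, rfl, h⟩ | h)
    · exact Or.inl h
    · exact Or.inr h
  · rintro (h | h)
    · exact Or.inl ⟨∅, empty_subset _, rfl, h⟩
    · exact Or.inr h

lemma sat_fChain [M.Finite] {n a k : ℕ} (hn : n < k) (ha : a < k) {N A : Set α}
    (hN : v n = N) (hA : v a = A) (hNE : N ⊆ M.E) :
    Sat M (fChain n a k) v ↔ ChainCond M N A := by
  have hn0 : n ≠ k := by omega
  have hn1 : n ≠ k + 1 := by omega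
  have ha0 : a ≠ k := by omega
  have ha1 : a ≠ k + 1 := by omega
  simp only [fChain, fPair, fComparable, Sat, ChainCond]
  refine forall_congr' fun F => forall_congr' fun hF => forall_congr' fun G =>
    forall_congr' fun hG => ?_
  rw [sat_fFlacet (N := N) (F := F) (by omega) (by omega) (by simp [hn0, hn1, hN]) (by simp) hNE hF,
    sat_fFlacet (N := N) (F := G) (by omega) (by omega) (by simp [hn0, hn1, hN]) (by simp) hNE hG,
    sat_fCo (N := N) (F := F) (G := G) (by omega) (by omega) (by omega)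
      (by simp [hn0, hn1, hN]) (by simp) (by simp) hF hG]
  simp [ha0, ha1, hA]

theorem sat_fGood [M.Finite] : Sat M fGood v ↔ Good M := by
  simp only [fGood, Sat, Good]
  refine forall_congr' fun N => forall_congr' fun hN => ?_
  rw [sat_fComp (N := N) (by omega) (by simp) hN]
  refine forall_congr' fun _ => exists_congr fun A => and_congr_right fun hA => ?_
  rw [sat_fChain (N := N) (A := A) (by omega) (by omega) (by simp) (by simp) hN]

/-! free variables -/

lemma free_fBasis {x y k z : ℕ} (h : FreeIn z (fBasis x y k)) : z = x ∨ z = y := by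
  simp only [fBasis, FreeIn] at h
  tauto

lemma free_fMod {x y k z : ℕ} (h : FreeIn z (fMod x y k)) : z = x ∨ z = y := by
  simp only [fMod, FreeIn] at h
  obtain ⟨h0, h1, h2, h3⟩ := h
  rcases h3 with h3 | h3 | h3 | h3 | h3
  · omega
  · omega
  · omega
  · have := free_fBasis h3
    omega
  · have := free_fBasis h3
    omega

lemma free_fEmpty {x k z : ℕ} (h : FreeIn z (fEmpty x k)) : z = x := by
  simp only [fEmpty, FreeIn] at h
  omega

lemma free_fFull {x k z : ℕ} (h : FreeIn z (fFull x k)) : z = x := by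
  simp only [fFull, FreeIn] at h
  omega

lemma free_fInter {x y f k z : ℕ} (h : FreeIn z (fInter x y f k)) : z = x ∨ z = y ∨ z = f := by
  simp only [fInter, FreeIn] at h
  omega

lemma free_fUnion {x y n k z : ℕ} (h : FreeIn z (fUnion x y n k)) : z = x ∨ z = y ∨ z = n := by
  simp only [fUnion, FreeIn] at h
  omega

lemma free_fSplit {f n x y k z : ℕ} (h : FreeIn z (fSplit f n x y k)) :
    z = f ∨ z = n ∨ z = x ∨ z = y := by
  simp only [fSplit, FreeIn] at h
  rcases h with h | h | h | h | h | h | h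
  · omega
  · omega
  · omega
  · omega
  · have := free_fInter h; omega
  · have := free_fUnion h; omega
  · have := free_fMod h; omega

lemma free_fConnMinor {f n k z : ℕ} (h : FreeIn z (fConnMinor f n k)) : z = f ∨ z = n := by
  simp only [fConnMinor, FreeIn] at h
  obtain ⟨h0, h1, h2 | h2⟩ := h
  · have := free_fSplit h2; omega
  · omega

lemma free_fConn {n k z : ℕ} (h : FreeIn z (fConn n k)) : z = n := by
  simp only [fConn, FreeIn] at h
  obtain ⟨h0, h1 | h1 | h1⟩ := h
  · have := free_fEmpty h1; omega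
  · omega
  · have := free_fConnMinor h1; omega

lemma free_fComp {n k z : ℕ} (h : FreeIn z (fComp n k)) : z = n := by
  simp only [fComp, FreeIn] at h
  rcases h with h | ⟨h0, h1, h2, h | h | h⟩
  · exact free_fConn h
  · have := free_fEmpty h; omega
  · have := free_fFull h; omega
  · have := free_fSplit h; omega

lemma free_fFlacet {n f k z : ℕ} (h : FreeIn z (fFlacet n f k)) : z = n ∨ z = f := by
  simp only [fFlacet, FreeIn] at h
  rcases h with h | h | h | h | ⟨h0, h | h⟩
  · omega
  · have := free_fConn h; omega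
  · omega
  · have := free_fConnMinor h; omega
  · have := free_fBasis h; omega
  · have := free_fBasis h; omega

lemma free_fCo {n f g k z : ℕ} (h : FreeIn z (fCo n f g k)) : z = n ∨ z = f ∨ z = g := by
  simp only [fCo, FreeIn] at h
  rcases h with ⟨h0, h | h⟩ | h
  · have := free_fEmpty h; omega
  · have := free_fInter h; omega
  · have := free_fUnion h; omega

lemma free_fPair {n a f g k z : ℕ} (h : FreeIn z (fPair n a f g k)) :
    z = n ∨ z = a ∨ z = f ∨ z = g := by
  simp only [fPair, fComparable, FreeIn] at h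
  rcases h with h | h | h | h | h
  · omega
  · omega
  · omega
  · omega
  · have := free_fCo h; omega

lemma free_fChain {n a k z : ℕ} (h : FreeIn z (fChain n a k)) : z = n ∨ z = a := by
  simp only [fChain, FreeIn] at h
  obtain ⟨h0, h1, h | h | h⟩ := h
  · have := free_fFlacet h; omega
  · have := free_fFlacet h; omega
  · have := free_fPair h; omega

theorem fGood_isSentence : fGood.IsSentence := by
  intro z h
  simp only [fGood, FreeIn] at h
  obtain ⟨h0, h | ⟨h1, h⟩⟩ := h
  · have := free_fComp h; omega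
  · have := free_fChain h; omega

end Run7.h185.LPM
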